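import Pool.Agent.Helper97.PA.Add

/-!
# Polynomials which are additive up to a constant
-/

set_option autoImplicit false

namespace Pool.Agent.Helper97.PA

open Polynomial

variable {k : Type} [Field k]

theorem aeval_inj {p q : k[X]}
    (h : aeval (MvPolynomial.X 1 : PP k) p = aeval (MvPolynomial.X 1 : PP k) q) : p = q := by
  refine (sep (a := 0) (b := 0) ?_).2
  rw [h]

theorem Ad.poly {r : k[X]} (hr : Ad r) (f g : k[X]) : r.comp (f + g) = r.comp f + r.comp g := by
  apply aeval_inj
  rw [aeval_comp, map_add, map_add, aeval_comp, aeval_comp]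
  exact hr _ _

/-- additive up to a constant -/
def AA (p : k[X]) : Prop := ∃ (r : k[X]) (c : k), Ad r ∧ p = r + C c

theorem AA.add {p q : k[X]} (hp : AA p) (hq : AA q) : AA (p + q) := by
  obtain ⟨r, c, hr, rfl⟩ := hp
  obtain ⟨r', c', hr', rfl⟩ := hq
  exact ⟨r + r', c + c', hr.add hr', by rw [C_add]; ring⟩

theorem AA.smul {p : k[X]} (hp : AA p) (a : k) : AA (C a * p) := by
  obtain ⟨r, c, hr, rfl⟩ := hp
  exact ⟨C a * r, a * c, hr.smul a, by rw [C_mul]; ring⟩

theorem AA.neg {p : k[X]} (hp : AA p) : AA (-p) := by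
  have := hp.smul (-1)
  simpa using this

theorem AA.sub {p q : k[X]} (hp : AA p) (hq : AA q) : AA (p - q) := by
  rw [sub_eq_add_neg]
  exact hp.add hq.neg

theorem AA.comp_lin {p : k[X]} (hp : AA p) (a b : k) : AA (p.comp (C a * X + C b)) := by
  obtain ⟨r, c, hr, rfl⟩ := hp
  refine ⟨r.comp (C a * X), r.eval b + c, hr.comp (ad_X.smul a), ?_⟩
  rw [add_comp, C_comp, hr.poly, comp_C, C_add]
  ring

theorem aa_of_natDegree_le {p : k[X]} (h : p.natDegree ≤ 1) : AA p := by
  obtain ⟨a, b, rfl⟩ := exists_eq_X_add_C_of_natDegree_le_one h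
  exact ⟨C a * X, b, ad_X.smul a, rfl⟩

theorem exists_min {p : k[X]} (hp : ¬ AA p) : ∃ p1 : k[X], AA (p - p1) ∧ 2 ≤ p1.natDegree ∧
    ∀ u : k[X], AA u → u.natDegree ≤ p1.natDegree → u.coeff p1.natDegree = 0 := by
  classical
  have hex : ∃ n, ∃ u : k[X], AA u ∧ (p - u).natDegree = n :=
    ⟨_, 0, ⟨0, 0, ad_zero, by simp⟩, rfl⟩
  obtain ⟨u0, hu0, hn⟩ := Nat.find_spec hex
  have h2 : 2 ≤ (p - u0).natDegree := by
    by_contra hcon
    have h3 := (aa_of_natDegree_le (p := p - u0) (by omega)).add hu0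
    rw [sub_add_cancel] at h3
    exact hp h3
  refine ⟨p - u0, by rw [sub_sub_cancel]; exact hu0, h2, ?_⟩
  intro u hu hdeg
  by_contra hne
  set n := (p - u0).natDegree with hn'
  let a : k := (p - u0).coeff n / u.coeff n
  have h4 : AA (u0 + C a * u) := hu0.add (hu.smul a)
  have h5 : p - (u0 + C a * u) = (p - u0) - C a * u := by ring
  have h6 : (p - (u0 + C a * u)).natDegree ≤ n := by
    rw [h5]
    refine (natDegree_sub_le _ _).trans (max_le le_rfl ((natDegree_C_mul_le _ _).trans hdeg))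
  have h7 : (p - (u0 + C a * u)).coeff n = 0 := by
    rw [h5, coeff_sub, coeff_C_mul, div_mul_cancel₀ _ hne, sub_self]
  have h8 : (p - (u0 + C a * u)).natDegree < n := by
    rcases lt_or_eq_of_le h6 with h | h
    · exact h
    · rw [← h, coeff_natDegree, leadingCoeff_eq_zero] at h7
      rw [h7, natDegree_zero]
      omega
  rw [hn] at h8
  exact Nat.find_min hex h8 ⟨_, h4, rfl⟩

/-- If `p (X + d) - p` is constant for infinitely many `d`, then `p` is additive up to a
constant. -/
theorem aa_of_infinite {p : k[X]} (h : {d : k | ∃ e : k, p.comp (X + C d) = p + C e}.Infinite) :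
    AA p := by
  let r : k[X] := p - C (p.eval 0)
  have hr0 : r.eval 0 = 0 := by simp [r]
  have hD : ∀ d ∈ {d : k | ∃ e : k, p.comp (X + C d) = p + C e},
      r.comp (X + C d) = r + C (r.eval d) := by
    rintro d ⟨e, he⟩
    have h1 : r.comp (X + C d) = r + C e := by
      simp only [r, sub_comp, C_comp, he]
      ring
    have h2 := congrArg (eval 0) h1
    rw [eval_comp, eval_add, eval_X, eval_C, zero_add, eval_add, hr0, eval_C, zero_add] at h2
    rw [h1, h2]
  let Y : k[X][X] := X
  let Z : k[X][X] := C X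
  let Ψ : k[X][X] := aeval (Z + Y) r - aeval Z r - aeval Y r
  have hΨ : Ψ = 0 := by
    apply eq_zero_of_infinite_isRoot
    have h1 : ((fun d : k => (C d : k[X])) ''
        {d : k | ∃ e : k, p.comp (X + C d) = p + C e}).Infinite :=
      h.image (C_injective.injOn)
    refine h1.mono ?_
    rintro _ ⟨d, hd, rfl⟩
    let θ : k[X][X] →ₐ[k] k[X] := eval₂AlgHom (AlgHom.id k k[X]) (C d)
      (fun a => Commute.all _ _)
    have hθ : ∀ q : k[X][X], θ q = q.eval (C d) := fun q => rfl
    show Ψ.eval (C d) = 0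
    rw [← hθ]
    have hθY : θ Y = C d := by rw [hθ]; exact eval_X
    have hθZ : θ Z = X := by rw [hθ]; exact eval_C
    simp only [Ψ, map_sub]
    rw [← aeval_algHom_apply, ← aeval_algHom_apply, ← aeval_algHom_apply, map_add, hθY, hθZ,
      aeval_X_left_apply, ← comp_eq_aeval, ← comp_eq_aeval, hD d hd, comp_C]
    ring
  refine ⟨r, p.eval 0, ?_, by simp [r]⟩
  intro F G
  let θ : k[X][X] →ₐ[k] PP k := eval₂AlgHom (aeval F) G (fun a => Commute.all _ _)
  have hθY : θ Y = G := eval₂_X _ _
  have hθZ : θ Z = F := by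
    show eval₂ _ _ (C X) = F
    rw [eval₂_C]
    exact aeval_X F
  have h1 := congrArg θ hΨ
  simp only [Ψ, map_sub, map_zero] at h1
  rw [← aeval_algHom_apply, ← aeval_algHom_apply, ← aeval_algHom_apply, map_add, hθY, hθZ] at h1
  rw [sub_sub, sub_eq_zero] at h1
  exact h1

/-- the leading coefficient of a polynomial after a linear substitution -/
theorem coeff_comp_lin (p : k[X]) {a : k} (ha : a ≠ 0) (b : k) :
    (p.comp (C a * X + C b)).coeff p.natDegree = p.leadingCoeff * a ^ p.natDegree := by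
  have h1 : (C a * X + C b).natDegree = 1 := natDegree_linear ha
  have h2 := coeff_comp_degree_mul_degree (p := p) (q := C a * X + C b) (by rw [h1]; decide)
  rw [h1, mul_one, leadingCoeff_linear ha] at h2
  exact h2

theorem natDegree_comp_lin (p : k[X]) (a b : k) :
    (p.comp (C a * X + C b)).natDegree ≤ p.natDegree := by
  rw [natDegree_comp]
  refine (Nat.mul_le_mul_left _ (natDegree_linear_le)).trans ?_
  rw [mul_one]

end Pool.Agent.Helper97.PA
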