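import Pool.Agent.Helper97.PA.Pol

/-!
# Additive polynomials and automorphisms given by additive polynomials
-/

set_option autoImplicit false

namespace Pool.Agent.Helper97.PA

open MvPolynomial

variable {k : Type} [Field k]

/-- additive polynomials -/
def Ad (r : Polynomial k) : Prop :=
  ∀ F G : PP k, Polynomial.aeval (F + G) r = Polynomial.aeval F r + Polynomial.aeval G r

theorem ad_zero : Ad (0 : Polynomial k) := fun F G => by simp

theorem ad_X : Ad (Polynomial.X : Polynomial k) := fun F G => by simp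

theorem Ad.add {r s : Polynomial k} (hr : Ad r) (hs : Ad s) : Ad (r + s) := by
  intro F G
  rw [map_add, map_add, map_add, hr, hs]
  ring

theorem Ad.smul {r : Polynomial k} (hr : Ad r) (a : k) : Ad (Polynomial.C a * r) := by
  intro F G
  rw [map_mul, map_mul, map_mul, hr, Polynomial.aeval_C, Polynomial.aeval_C, Polynomial.aeval_C]
  ring

theorem Ad.neg {r : Polynomial k} (hr : Ad r) : Ad (-r) := by
  have := hr.smul (-1)
  simpa using this

theorem Ad.sub {r s : Polynomial k} (hr : Ad r) (hs : Ad s) : Ad (r - s) := by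
  rw [sub_eq_add_neg]
  exact hr.add hs.neg

theorem Ad.comp {r s : Polynomial k} (hr : Ad r) (hs : Ad s) : Ad (r.comp s) := by
  intro F G
  rw [Polynomial.aeval_comp, Polynomial.aeval_comp, Polynomial.aeval_comp, hs, hr]

theorem Ad.map_zero {r : Polynomial k} (hr : Ad r) : Polynomial.aeval (0 : PP k) r = 0 := by
  have := hr 0 0
  rw [add_zero] at this
  exact left_eq_add.1 this

theorem aeval_C' (r : Polynomial k) (c : k) :
    Polynomial.aeval (C c : PP k) r = C (r.eval c) := by
  have := Polynomial.aeval_algebraMap_apply (PP k) c r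
  rw [algebraMap_eq] at this
  rw [this, Polynomial.coe_aeval_eq_eval]

theorem Ad.eval_zero {r : Polynomial k} (hr : Ad r) : r.eval 0 = 0 := by
  have := hr.map_zero
  rw [← C_0, aeval_C'] at this
  exact C_injective _ _ this

/-- `φ x = a x + r (y) + c` and `φ y = d y + e` with an additive polynomial `r` -/
def IsTA (φ : Au k) : Prop :=
  (∃ (a : k) (r : Polynomial k) (c : k), Ad r ∧
    φ (X 0) = C a * X 0 + Polynomial.aeval (X 1) r + C c) ∧
    ∃ d c : k, φ (X 1) = C d * X 1 + C c

theorem isTA_mul {φ ψ : Au k} (hφ : IsTA φ) (hψ : IsTA ψ) : IsTA (φ * ψ) := by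
  obtain ⟨⟨a, r, e, hr, h0⟩, ⟨d, c, h1⟩⟩ := hψ
  obtain ⟨⟨a', r', e', hr', h0'⟩, ⟨d', c', h1'⟩⟩ := hφ
  constructor
  · refine ⟨a * a', Polynomial.C a * r' + r.comp (Polynomial.C d' * Polynomial.X),
      a * e' + r.eval c' + e, (hr'.smul a).add (hr.comp (ad_X.smul d')), ?_⟩
    show φ (ψ (X 0)) = _
    rw [h0, map_add, map_add, map_mul, au_C, au_C, au_aeval, h0', h1', hr, aeval_C', C_mul,
      C_add, C_add, C_mul]
    simp only [map_add, map_mul, Polynomial.aeval_C, Polynomial.aeval_comp, Polynomial.aeval_X,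
      algebraMap_eq]
    ring
  · refine ⟨d * d', d * c' + c, ?_⟩
    show φ (ψ (X 1)) = _
    rw [h1, map_add, map_mul, au_C, au_C, h1', C_add, C_mul, C_mul]
    ring

theorem isTA_one : IsTA (1 : Au k) :=
  ⟨⟨1, 0, 0, ad_zero, by simp⟩, ⟨1, 0, by simp⟩⟩

theorem IsTA.isTri {φ : Au k} (h : IsTA φ) : IsTri φ := by
  obtain ⟨⟨a, r, c, _, h0⟩, h1⟩ := h
  refine ⟨⟨a, r + Polynomial.C c, ?_⟩, h1⟩
  rw [h0, map_add, Polynomial.aeval_C, algebraMap_eq, add_assoc]

/-- the triangular automorphisms with additive polynomials -/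
noncomputable def triAd (k : Type) [Field k] : Subgroup (Au k) where
  carrier := {φ | IsTA φ ∧ IsTA φ⁻¹}
  one_mem' := ⟨isTA_one, by rw [inv_one]; exact isTA_one⟩
  mul_mem' := by
    rintro a b ⟨h1, h2⟩ ⟨h3, h4⟩
    refine ⟨isTA_mul h1 h3, ?_⟩
    rw [mul_inv_rev]
    exact isTA_mul h4 h2
  inv_mem' := by
    rintro a ⟨h1, h2⟩
    exact ⟨h2, by rw [inv_inv]; exact h1⟩

theorem triAd_le : triAd k ≤ triangular k := fun _ h => ⟨h.1.isTri, h.2.isTri⟩

/-- a sum of additive polynomials in `x` and `y` and of a constant -/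
def AddF (F : PP k) : Prop := ∃ (r s : Polynomial k) (c : k), Ad r ∧ Ad s ∧
  F = Polynomial.aeval (X 0) r + Polynomial.aeval (X 1) s + C c

theorem AddF.add {F G : PP k} (hF : AddF F) (hG : AddF G) : AddF (F + G) := by
  obtain ⟨r, s, c, hr, hs, rfl⟩ := hF
  obtain ⟨r', s', c', hr', hs', rfl⟩ := hG
  refine ⟨r + r', s + s', c + c', hr.add hr', hs.add hs', ?_⟩
  rw [map_add, map_add, C_add]
  ring

theorem AddF.aeval {F : PP k} (hF : AddF F) {r : Polynomial k} (hr : Ad r) :
    AddF (Polynomial.aeval F r) := by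
  obtain ⟨r', s', c', hr', hs', rfl⟩ := hF
  refine ⟨r.comp r', r.comp s', r.eval c', hr.comp hr', hr.comp hs', ?_⟩
  rw [hr, hr, Polynomial.aeval_comp, Polynomial.aeval_comp, aeval_C']

theorem addF_C (c : k) : AddF (C c : PP k) := ⟨0, 0, c, ad_zero, ad_zero, by simp⟩

/-- automorphisms given by additive polynomials and constants -/
def IsAdd (φ : Au k) : Prop := ∀ j, AddF (φ (X j))

theorem IsAdd.map {φ : Au k} (h : IsAdd φ) {F : PP k} (hF : AddF F) : AddF (φ F) := by
  obtain ⟨r, s, c, hr, hs, rfl⟩ := hF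
  rw [map_add, map_add, au_aeval, au_aeval, au_C]
  exact (((h 0).aeval hr).add ((h 1).aeval hs)).add (addF_C c)

theorem isAdd_one : IsAdd (1 : Au k) := by
  intro j
  fin_cases j
  · exact ⟨Polynomial.X, 0, 0, ad_X, ad_zero, by simp⟩
  · exact ⟨0, Polynomial.X, 0, ad_zero, ad_X, by simp⟩

/-- the group of these automorphisms -/
noncomputable def addG (k : Type) [Field k] : Subgroup (Au k) where
  carrier := {φ | IsAdd φ ∧ IsAdd φ⁻¹}
  one_mem' := ⟨isAdd_one, by rw [inv_one]; exact isAdd_one⟩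
  mul_mem' := by
    rintro a b ⟨h1, h2⟩ ⟨h3, h4⟩
    refine ⟨fun j => h1.map (h3 j), ?_⟩
    rw [mul_inv_rev]
    exact fun j => h4.map (h2 j)
  inv_mem' := by
    rintro a ⟨h1, h2⟩
    exact ⟨h2, by rw [inv_inv]; exact h1⟩

theorem Lin.addF {F : PP k} (h : Lin F) : AddF F := by
  obtain ⟨a, b, c, rfl⟩ := h
  refine ⟨Polynomial.C a * Polynomial.X, Polynomial.C b * Polynomial.X, c, ad_X.smul a,
    ad_X.smul b, ?_⟩
  simp [algebraMap_eq]

theorem IsAf.isAdd {φ : Au k} (h : IsAf φ) : IsAdd φ := by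
  intro j
  fin_cases j
  · exact h.1.addF
  · exact h.2.addF

theorem IsTA.isAdd {φ : Au k} (h : IsTA φ) : IsAdd φ := by
  obtain ⟨⟨a, r, c, hr, h0⟩, ⟨d, e, h1⟩⟩ := h
  intro j
  fin_cases j
  · refine ⟨Polynomial.C a * Polynomial.X, r, c, ad_X.smul a, hr, ?_⟩
    show φ (X 0) = _
    rw [h0]
    simp [algebraMap_eq]
  · exact Lin.addF ⟨0, d, e, by
      show φ (X 1) = _
      rw [h1]
      simp⟩

theorem affine_le : affine k ≤ addG k := fun _ h => ⟨h.1.isAdd, h.2.isAdd⟩

theorem triAd_le_addG : triAd k ≤ addG k := fun _ h => ⟨h.1.isAdd, h.2.isAdd⟩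

theorem isTA_of {φ : Au k} (h : IsAdd φ) (h' : IsTri φ) : IsTA φ := by
  obtain ⟨⟨a, p, h0⟩, h1⟩ := h'
  obtain ⟨r, s, c, hr, hs, e⟩ := h 0
  refine ⟨⟨a, s, c, hs, ?_⟩, h1⟩
  rw [h0] at e
  have e1 := congrArg (MvPolynomial.aeval (![0, Polynomial.X] : Fin 2 → Polynomial k)) e
  have e2 : ∀ r : Polynomial k,
      MvPolynomial.aeval (![0, Polynomial.X] : Fin 2 → Polynomial k)
        (Polynomial.aeval (X 1 : PP k) r) = r := by
    intro r
    rw [← Polynomial.aeval_algHom_apply]
    simp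
  have e3 : MvPolynomial.aeval (![0, Polynomial.X] : Fin 2 → Polynomial k)
        (Polynomial.aeval (X 0 : PP k) r) = 0 := by
    rw [← Polynomial.aeval_algHom_apply, aeval_X]
    show Polynomial.aeval (0 : Polynomial k) r = 0
    rw [← Polynomial.C_0, ← Polynomial.algebraMap_eq, Polynomial.aeval_algebraMap_apply,
      Polynomial.coe_aeval_eq_eval, hr.eval_zero, map_zero]
  rw [map_add, map_add, map_add, e2, e2, e3] at e1
  simp at e1
  rw [h0, e1, map_add, Polynomial.aeval_C, algebraMap_eq]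
  ring

theorem inter {φ : Au k} (h : φ ∈ addG k) (h' : φ ∈ triangular k) : φ ∈ triAd k :=
  ⟨isTA_of h.1 h'.1, isTA_of h.2 h'.2⟩

/-! ### the linear part -/

theorem Ad.derivative {r : Polynomial k} (hr : Ad r) :
    Polynomial.derivative r = Polynomial.C (r.coeff 1) := by
  have h := congrArg (pderiv (1 : Fin 2)) (hr (X 0) (X 1))
  rw [map_add, Derivation.map_aeval, Derivation.map_aeval, Derivation.map_aeval, map_add,
    pderiv_X_self, pderiv_X_of_ne (by decide)] at h
  simp only [zero_add, smul_eq_mul, mul_one, mul_zero] at h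
  have h1 := congrArg (MvPolynomial.aeval (![Polynomial.X, 0] : Fin 2 → Polynomial k)) h
  rw [← Polynomial.aeval_algHom_apply, ← Polynomial.aeval_algHom_apply, map_add, aeval_X,
    aeval_X] at h1
  have h2 : Polynomial.aeval (Polynomial.X : Polynomial k) (Polynomial.derivative r) =
      Polynomial.aeval (0 : Polynomial k) (Polynomial.derivative r) := by
    simpa using h1
  rw [Polynomial.aeval_X_left_apply] at h2
  rw [h2, ← Polynomial.C_0, ← Polynomial.algebraMap_eq, Polynomial.aeval_algebraMap_apply,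
    Polynomial.coe_aeval_eq_eval, ← Polynomial.coeff_zero_eq_eval_zero,
    Polynomial.coeff_derivative]
  simp

theorem pderiv_ad {r : Polynomial k} (hr : Ad r) (F : PP k) (i : Fin 2) :
    pderiv i (Polynomial.aeval F r) = C (r.coeff 1) * pderiv i F := by
  rw [Derivation.map_aeval, hr.derivative, Polynomial.aeval_C, smul_eq_mul, algebraMap_eq]

/-- the matrix of the linear part -/
noncomputable def jac (φ : Au k) : Matrix (Fin 2) (Fin 2) k :=
  fun i j => constantCoeff (pderiv i (φ (X j)))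

theorem jac_mul (φ : Au k) {ψ : Au k} (h : ψ ∈ addG k) : jac (φ * ψ) = jac φ * jac ψ := by
  ext i j
  obtain ⟨r, s, c, hr, hs, e⟩ := h.1 j
  have h1 : pderiv i ((φ * ψ) (X j)) =
      C (r.coeff 1) * pderiv i (φ (X 0)) + C (s.coeff 1) * pderiv i (φ (X 1)) := by
    show pderiv i (φ (ψ (X j))) = _
    rw [e]
    simp only [map_add, au_aeval, au_C, pderiv_ad hr, pderiv_ad hs, pderiv_C, add_zero]
  have h2 : jac ψ 0 j = r.coeff 1 := by
    unfold jac
    rw [e]
    simp only [map_add, pderiv_ad hr, pderiv_ad hs, pderiv_C, add_zero, pderiv_X_self]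
    rw [pderiv_X_of_ne (by decide)]
    simp
  have h3 : jac ψ 1 j = s.coeff 1 := by
    unfold jac
    rw [e]
    simp only [map_add, pderiv_ad hr, pderiv_ad hs, pderiv_C, add_zero, pderiv_X_self]
    rw [pderiv_X_of_ne (by decide)]
    simp
  rw [Matrix.mul_apply, Fin.sum_univ_two, h2, h3]
  unfold jac
  rw [h1, map_add, map_mul, map_mul, constantCoeff_C, constantCoeff_C]
  ring

theorem jac_one : jac (1 : Au k) = 1 := by
  ext i j
  show constantCoeff (pderiv i (X j : PP k)) = _
  rw [pderiv_X]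
  by_cases h : i = j
  · subst h
    simp
  · rw [Matrix.one_apply_ne h, Pi.single_eq_of_ne (fun h' => h h'.symm), map_zero]

/-- the linear part on the group of automorphisms given by additive polynomials -/
noncomputable def jacH (k : Type) [Field k] : addG k →* (Matrix (Fin 2) (Fin 2) k)ˣ :=
  MonoidHom.toHomUnits
    { toFun := fun φ => jac (φ : Au k)
      map_one' := jac_one
      map_mul' := fun φ ψ => jac_mul (φ : Au k) ψ.2 }

theorem jacH_val (φ : addG k) : (jacH k φ).val = jac (φ : Au k) := rfl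

end Pool.Agent.Helper97.PA
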