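import Pool.Agent.Helper97.PA.Turn

/-!
# The stabilizers of long paths are finite
-/

set_option autoImplicit false

namespace Pool.Agent.Helper97.PA

open MvPolynomial

variable {k : Type} [Field k]

/-- the relations at a turn at an additive vertex -/
theorem hturn_rel {s : Au k} {r t : Polynomial k} {c : k} (hr : Ad r) (ht : Ad t)
    (e1 : s (X 1) = Polynomial.aeval (X 0) r + Polynomial.aeval (X 1) t + C c) {f f' : Au k}
    (hf : f ∈ triAd k) (hf' : f' ∈ triAd k) (h : f * s = s * f') :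
    ∃ (u : Polynomial k) (e d d' : k), Ad u ∧
      f (X 0) = C (al f) * X 0 + Polynomial.aeval (X 1) u + C e ∧
      f (X 1) = C (de f) * X 1 + C d ∧ f' (X 1) = C (de f') * X 1 + C d' ∧
      r.comp (Polynomial.C (al f) * Polynomial.X) = Polynomial.C (de f') * r ∧
      r.comp u + t.comp (Polynomial.C (de f) * Polynomial.X) = Polynomial.C (de f') * t ∧
      r.eval e + t.eval d + c = de f' * c + d' := by
  obtain ⟨p, d, ⟨u, e, hu, rfl⟩, f0, f1, _, _⟩ := triAd_form hf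
  obtain ⟨_, d', _, _, f1', _, _⟩ := triAd_form hf'
  have h1 : (f * s) (X 1) = (s * f') (X 1) := congrArg (fun g : Au k => g (X 1)) h
  have g1 : (f * s) (X 1) =
      Polynomial.aeval (X 0) (r.comp (Polynomial.C (al f) * Polynomial.X)) +
      Polynomial.aeval (X 1) (r.comp u + t.comp (Polynomial.C (de f) * Polynomial.X)) +
      C (r.eval e + t.eval d + c) := by
    show f (s (X 1)) = _
    rw [e1, map_add, map_add, au_aeval, au_aeval, au_C, f0, f1, map_add (Polynomial.aeval _) u,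
      Polynomial.aeval_C, algebraMap_eq, ← add_assoc, hr, hr, ht, aeval_C', aeval_C', C_add,
      C_add]
    simp only [map_add, map_mul, Polynomial.aeval_C, Polynomial.aeval_comp, Polynomial.aeval_X,
      algebraMap_eq]
    ring
  have g1' : (s * f') (X 1) =
      Polynomial.aeval (X 0) (Polynomial.C (de f') * r) +
      Polynomial.aeval (X 1) (Polynomial.C (de f') * t) + C (de f' * c + d') := by
    show s (f' (X 1)) = _
    rw [f1', map_add, map_mul, au_C, au_C, e1, C_add, C_mul]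
    simp only [map_mul, Polynomial.aeval_C, algebraMap_eq]
    ring
  rw [g1, g1'] at h1
  obtain ⟨i1, i2, i3⟩ := add_inj (hr.comp (ad_X.smul _))
    ((hr.comp hu).add (ht.comp (ad_X.smul _))) (hr.smul _) (ht.smul _) h1
  refine ⟨u, e, d, d', hu, ?_, f1, f1', i1, i2, i3⟩
  rw [f0, map_add, Polynomial.aeval_C, algebraMap_eq, add_assoc]

/-- the torus part at a turn at an additive vertex -/
theorem hturn {s : Au k} (hs : s ∈ addG k) (hs' : s ∉ triangular k) :
    ∃ n, 1 ≤ n ∧ ∀ f f' : Au k, f ∈ triAd k → f' ∈ triAd k → f * s = s * f' →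
      de f' = al f ^ n := by
  obtain ⟨r, t, c, hr, ht, hr0, e1⟩ := add_not_tri hs hs'
  refine ⟨r.natDegree, hr.natDegree_pos hr0, ?_⟩
  intro f f' hf hf' h
  obtain ⟨u, e, d, d', _, _, _, _, i1, _, _⟩ := hturn_rel hr ht e1 hf hf' h
  obtain ⟨_, _, _, _, _, ha, _⟩ := triAd_form hf
  have h2 := congrArg (fun q : Polynomial k => q.coeff r.natDegree) i1
  have h3 := coeff_comp_lin r ha 0
  rw [Polynomial.C_0, add_zero] at h3
  simp only [Polynomial.coeff_C_mul, Polynomial.coeff_natDegree] at h2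
  rw [h3, mul_comm] at h2
  exact (mul_right_cancel₀ (Polynomial.leadingCoeff_ne_zero.2 hr0) h2).symm

/-- translations -/
def Tr (f : Au k) : Prop := ∃ a b : k, f (X 0) = X 0 + C a ∧ f (X 1) = X 1 + C b

/-- the unipotent part at a turn at an additive vertex -/
theorem hturn_uni {s : Au k} (hs : s ∈ addG k) (hs' : s ∉ triangular k) {f f' : Au k}
    (hf : f ∈ triAd k) (hf' : f' ∈ triAd k) (h : f * s = s * f') (h1 : al f = 1)
    (h2 : de f = 1) : Tr f := by
  obtain ⟨n, _, hn⟩ := hturn hs hs'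
  have h3 : de f' = 1 := by rw [hn f f' hf hf' h, h1, one_pow]
  obtain ⟨r, t, c, hr, ht, hr0, e1⟩ := add_not_tri hs hs'
  obtain ⟨u, e, d, d', hu, f0, f1, _, _, i2, _⟩ := hturn_rel hr ht e1 hf hf' h
  rw [h2, h3, Polynomial.C_1, one_mul, one_mul, Polynomial.comp_X, add_eq_right] at i2
  have hu0 : u = 0 := by
    rcases Polynomial.comp_eq_zero_iff.1 i2 with h4 | ⟨_, h4⟩
    · exact absurd h4 hr0
    · by_contra h5
      have h6 := hu.natDegree_pos h5
      rw [h4, Polynomial.natDegree_C] at h6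
      omega
  subst hu0
  refine ⟨e, d, ?_, ?_⟩
  · rw [f0, h1, map_zero, C_1, one_mul, add_zero]
  · rw [f1, h2, C_1, one_mul]

/-- the two components of a translation -/
noncomputable def sx (f : Au k) : k := constantCoeff (f (X 0))

/-- the two components of a translation -/
noncomputable def sy (f : Au k) : k := constantCoeff (f (X 1))

theorem Tr.form {f : Au k} (h : Tr f) : f (X 0) = X 0 + C (sx f) ∧ f (X 1) = X 1 + C (sy f) := by
  obtain ⟨a, b, h0, h1⟩ := h
  have h2 : sx f = a := by unfold sx; rw [h0]; simp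
  have h3 : sy f = b := by unfold sy; rw [h1]; simp
  rw [h2, h3]
  exact ⟨h0, h1⟩

theorem Tr.ext {f g : Au k} (hf : Tr f) (hg : Tr g) (h0 : sx f = sx g) (h1 : sy f = sy g) :
    f = g := by
  apply AlgEquiv.coe_toAlgHom_injective
  apply MvPolynomial.algHom_ext
  intro i
  fin_cases i
  · show f (X 0) = g (X 0)
    rw [hf.form.1, hg.form.1, h0]
  · show f (X 1) = g (X 1)
    rw [hf.form.2, hg.form.2, h1]

theorem eturn_fin {s : Au k} (hs : s ∈ triangular k) (hs' : s ∉ addG k) :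
    ∃ D : Set k, D.Finite ∧ ∀ f f' : Au k, Tr f → Tr f' → f * s = s * f' →
      sy f ∈ D ∧ sy f' ∈ D := by
  obtain ⟨p, n, e0, e1, hl, hm⟩ := tri_form hs
  have hp : ¬ AA p := fun h => hs' (triAd_le_addG (mem_triAd hs e0 e1 h))
  let D0 : Set k := {d : k | ∃ e : k, p.comp (Polynomial.X + Polynomial.C d) =
    p + Polynomial.C e}
  have hD0 : D0.Finite := by
    by_contra hcon
    exact hp (aa_of_infinite hcon)
  refine ⟨D0 ∪ (fun d => de s * d) '' D0, hD0.union (hD0.image _), ?_⟩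
  intro f f' hf hf' h
  have f0 := hf.form.1
  have f1 := hf.form.2
  have f0' := hf'.form.1
  have f1' := hf'.form.2
  have h0 : (f * s) (X 0) = (s * f') (X 0) := congrArg (fun g : Au k => g (X 0)) h
  have h1 : (f * s) (X 1) = (s * f') (X 1) := congrArg (fun g : Au k => g (X 1)) h
  have g0 : (f * s) (X 0) = C (al s) * X 0 + Polynomial.aeval (X 1)
      (p.comp (Polynomial.X + Polynomial.C (sy f)) + Polynomial.C (al s * sx f)) := by
    show f (s (X 0)) = _
    rw [e0, map_add, map_mul, au_C, au_aeval, f0, f1]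
    simp only [map_add, Polynomial.aeval_C, Polynomial.aeval_comp, Polynomial.aeval_X,
      algebraMap_eq, C_mul]
    ring
  have g0' : (s * f') (X 0) = C (al s) * X 0 + Polynomial.aeval (X 1)
      (p + Polynomial.C (sx f')) := by
    show s (f' (X 0)) = _
    rw [f0', map_add, au_C, e0, map_add, Polynomial.aeval_C, algebraMap_eq, add_assoc]
  have g1 : (f * s) (X 1) = C 0 * X 0 + C (de s) * X 1 + C (de s * sy f + n) := by
    show f (s (X 1)) = _
    rw [e1, map_add, map_mul, au_C, au_C, f1]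
    simp only [C_mul, C_add, C_0]
    ring
  have g1' : (s * f') (X 1) = C 0 * X 0 + C (de s) * X 1 + C (n + sy f') := by
    show s (f' (X 1)) = _
    rw [f1', map_add, au_C, e1]
    simp only [C_add, C_0]
    ring
  rw [g0, g0'] at h0
  rw [g1, g1'] at h1
  obtain ⟨_, i1⟩ := sep h0
  obtain ⟨_, _, i2⟩ := lin_inj h1
  have i3 : sy f ∈ D0 := by
    refine ⟨sx f' - al s * sx f, ?_⟩
    rw [Polynomial.C_sub]
    linear_combination i1
  have i4 : sy f' = de s * sy f := by linear_combination - i2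
  exact ⟨Or.inl i3, Or.inr ⟨sy f, i3, i4.symm⟩⟩

theorem hturn_fin {s : Au k} (hs : s ∈ addG k) (hs' : s ∉ triangular k) {D1 D2 : Set k}
    (hD1 : D1.Finite) (hD2 : D2.Finite) :
    ∃ E : Set k, E.Finite ∧ ∀ f f' : Au k, Tr f → Tr f' → f * s = s * f' →
      sy f ∈ D1 → sy f' ∈ D2 → sx f ∈ E := by
  obtain ⟨r, t, c, hr, ht, hr0, e1⟩ := add_not_tri hs hs'
  refine ⟨⋃ a ∈ D1, ⋃ b ∈ D2, {x | (r - Polynomial.C (b - t.eval a)).IsRoot x}, ?_, ?_⟩
  · refine hD1.biUnion fun a _ => hD2.biUnion fun b _ => ?_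
    apply Polynomial.finite_setOfPred_isRoot
    intro h
    have h1 := hr.natDegree_pos hr0
    rw [sub_eq_zero] at h
    rw [h, Polynomial.natDegree_C] at h1
    omega
  · intro f f' hf hf' h h1 h2
    have f0 := hf.form.1
    have f1 := hf.form.2
    have f1' := hf'.form.2
    have h3 : (f * s) (X 1) = (s * f') (X 1) := congrArg (fun g : Au k => g (X 1)) h
    have g1 : (f * s) (X 1) = Polynomial.aeval (X 0) r + Polynomial.aeval (X 1) t +
        C (r.eval (sx f) + t.eval (sy f) + c) := by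
      show f (s (X 1)) = _
      rw [e1, map_add, map_add, au_aeval, au_aeval, au_C, f0, f1, hr, ht, aeval_C', aeval_C',
        C_add, C_add]
      ring
    have g1' : (s * f') (X 1) = Polynomial.aeval (X 0) r + Polynomial.aeval (X 1) t +
        C (c + sy f') := by
      show s (f' (X 1)) = _
      rw [f1', map_add, au_C, e1, C_add, add_assoc]
    rw [g1, g1'] at h3
    have h4 := (add_inj hr ht hr ht h3).2.2
    refine Set.mem_biUnion h1 (Set.mem_biUnion h2 ?_)
    show (r - Polynomial.C (sy f' - t.eval (sy f))).eval (sx f) = 0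
    rw [Polynomial.eval_sub, Polynomial.eval_C]
    linear_combination h4

theorem finite_pow {N : ℕ} (hN : 0 < N) : {x : k | x ^ N = 1}.Finite := by
  have h := Polynomial.finite_setOfPred_isRoot (p := (Polynomial.X ^ N - Polynomial.C 1 : Polynomial k))
    (Polynomial.X_pow_sub_C_ne_zero hN 1)
  refine h.subset ?_
  intro x hx
  show Polynomial.eval x _ = 0
  have hx' : x ^ N = 1 := hx
  simp [hx']

section core

variable (h : ℕ → Au k)

/-- the action of `f` at the `i`-th edge -/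
noncomputable def cj (i : ℕ) (f : Au k) : Au k := (h i)⁻¹ * f * h i

theorem cj_mul (i : ℕ) (f g : Au k) : cj h i (f * g) = cj h i f * cj h i g := by
  unfold cj
  group

theorem cj_turn (i : ℕ) (f : Au k) :
    cj h i f * ((h i)⁻¹ * h (i + 1)) = ((h i)⁻¹ * h (i + 1)) * cj h (i + 1) f := by
  unfold cj
  group

theorem cj_turn' (i : ℕ) (f : Au k) :
    cj h (i + 1) f * ((h i)⁻¹ * h (i + 1))⁻¹ = ((h i)⁻¹ * h (i + 1))⁻¹ * cj h i f := by
  unfold cj
  group

theorem cj_inj (i : ℕ) {f g : Au k} (hfg : cj h i f = cj h i g) : f = g := by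
  unfold cj at hfg
  exact mul_left_cancel (mul_right_cancel hfg)

/-- **the stabilizers of paths with six edges** -/
theorem core (h0 : (h 0)⁻¹ * h 1 ∈ addG k) (h0' : (h 0)⁻¹ * h 1 ∉ triangular k)
    (h1 : (h 1)⁻¹ * h 2 ∈ triangular k) (h1' : (h 1)⁻¹ * h 2 ∉ addG k)
    (h2 : (h 2)⁻¹ * h 3 ∈ addG k) (h2' : (h 2)⁻¹ * h 3 ∉ triangular k)
    (h3 : (h 3)⁻¹ * h 4 ∈ triangular k) (h3' : (h 3)⁻¹ * h 4 ∉ addG k)
    (h4 : (h 4)⁻¹ * h 5 ∈ addG k) (h4' : (h 4)⁻¹ * h 5 ∉ triangular k) :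
    {f : Au k | ∀ i ≤ 5, cj h i f ∈ triAd k}.Finite := by
  set S : Set (Au k) := {f : Au k | ∀ i ≤ 5, cj h i f ∈ triAd k} with hS
  obtain ⟨n1, hn1, e1⟩ := eturn h1 h1'
  obtain ⟨n3, hn3, e3⟩ := eturn h3 h3'
  obtain ⟨m, hm, e2⟩ := hturn h2 h2'
  have i2 : ((h 2)⁻¹ * h 3)⁻¹ ∈ addG k := inv_mem h2
  have i2' : ((h 2)⁻¹ * h 3)⁻¹ ∉ triangular k := fun hc => h2' (inv_mem_iff.1 hc)
  obtain ⟨m', hm', e2'⟩ := hturn i2 i2'
  have i0 : ((h 0)⁻¹ * h 1)⁻¹ ∈ addG k := inv_mem h0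
  have i0' : ((h 0)⁻¹ * h 1)⁻¹ ∉ triangular k := fun hc => h0' (inv_mem_iff.1 hc)
  obtain ⟨D1, hD1, d1⟩ := eturn_fin h1 h1'
  obtain ⟨D3, hD3, d3⟩ := eturn_fin h3 h3'
  obtain ⟨E, hE, d2⟩ := hturn_fin h2 h2' hD1 hD3
  -- the relations
  have r1 : ∀ f ∈ S, al (cj h 1 f) = al (cj h 2 f) ∧ de (cj h 1 f) = de (cj h 2 f) ∧
      al (cj h 1 f) = de (cj h 1 f) ^ n1 := fun f hf =>
    e1 _ _ (hf 1 (by omega)) (hf 2 (by omega)) (cj_turn h 1 f)
  have r3 : ∀ f ∈ S, al (cj h 3 f) = al (cj h 4 f) ∧ de (cj h 3 f) = de (cj h 4 f) ∧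
      al (cj h 3 f) = de (cj h 3 f) ^ n3 := fun f hf =>
    e3 _ _ (hf 3 (by omega)) (hf 4 (by omega)) (cj_turn h 3 f)
  have r2 : ∀ f ∈ S, de (cj h 3 f) = al (cj h 2 f) ^ m := fun f hf =>
    e2 _ _ (hf 2 (by omega)) (hf 3 (by omega)) (cj_turn h 2 f)
  have r2' : ∀ f ∈ S, de (cj h 2 f) = al (cj h 3 f) ^ m' := fun f hf =>
    e2' _ _ (hf 3 (by omega)) (hf 2 (by omega)) (cj_turn' h 2 f)
  -- the kernel of the torus part
  set K : Set (Au k) := {f | f ∈ S ∧ al (cj h 2 f) = 1 ∧ de (cj h 2 f) = 1} with hK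
  have hKtr : ∀ f ∈ K, Tr (cj h 1 f) ∧ Tr (cj h 2 f) ∧ Tr (cj h 3 f) ∧ Tr (cj h 4 f) := by
    rintro f ⟨hf, a2, b2⟩
    obtain ⟨u1, u2, _⟩ := r1 f hf
    obtain ⟨u3, u4, u5⟩ := r3 f hf
    have a1 : al (cj h 1 f) = 1 := u1.trans a2
    have b1 : de (cj h 1 f) = 1 := u2.trans b2
    have b3 : de (cj h 3 f) = 1 := by rw [r2 f hf, a2, one_pow]
    have a3 : al (cj h 3 f) = 1 := by rw [u5, b3, one_pow]
    have a4 : al (cj h 4 f) = 1 := u3.symm.trans a3
    have b4 : de (cj h 4 f) = 1 := u4.symm.trans b3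
    exact ⟨hturn_uni i0 i0' (hf 1 (by omega)) (hf 0 (by omega)) (cj_turn' h 0 f) a1 b1,
      hturn_uni h2 h2' (hf 2 (by omega)) (hf 3 (by omega)) (cj_turn h 2 f) a2 b2,
      hturn_uni i2 i2' (hf 3 (by omega)) (hf 2 (by omega)) (cj_turn' h 2 f) a3 b3,
      hturn_uni h4 h4' (hf 4 (by omega)) (hf 5 (by omega)) (cj_turn h 4 f) a4 b4⟩
  have hKfin : K.Finite := by
    refine Set.Finite.of_injOn (f := fun f => (sx (cj h 2 f), sy (cj h 2 f)))
      (t := E ×ˢ D1) ?_ ?_ (hE.prod hD1)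
    · intro f hf
      obtain ⟨t1, t2, t3, t4⟩ := hKtr f hf
      obtain ⟨v1, v2⟩ := d1 _ _ t1 t2 (cj_turn h 1 f)
      obtain ⟨v3, v4⟩ := d3 _ _ t3 t4 (cj_turn h 3 f)
      exact ⟨d2 _ _ t2 t3 (cj_turn h 2 f) v2 v3, v2⟩
    · intro f hf g hg hfg
      have hfg' := Prod.ext_iff.1 hfg
      exact cj_inj h 2 ((hKtr f hf).2.1.ext (hKtr g hg).2.1 hfg'.1 hfg'.2)
  refine Set.Finite.of_finite_fibers (fun f => (al (cj h 2 f), de (cj h 2 f))) ?_ ?_
  · have hN : 0 < n1 * m * n3 * m' - 1 := by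
      have : 2 * 1 * 2 * 1 ≤ n1 * m * n3 * m' :=
        Nat.mul_le_mul (Nat.mul_le_mul (Nat.mul_le_mul hn1 hm) hn3) hm'
      omega
    refine ((finite_pow hN).image (fun x : k => (x ^ n1, x))).subset ?_
    rintro _ ⟨f, hf, rfl⟩
    obtain ⟨u1, u2, u3⟩ := r1 f hf
    obtain ⟨_, _, u4⟩ := r3 f hf
    have a2 : al (cj h 2 f) = de (cj h 2 f) ^ n1 := by rw [← u1, ← u2, u3]
    refine ⟨de (cj h 2 f), ?_, Prod.ext a2.symm rfl⟩
    have hne : de (cj h 2 f) ≠ 0 := (triAd_form (hf 2 (by omega))).choose_spec.choose_spec.2.2.2.2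
    have h5 : de (cj h 2 f) = de (cj h 2 f) ^ (n1 * m * n3 * m') := by
      conv_lhs => rw [r2' f hf, u4, r2 f hf, a2]
      rw [← pow_mul, ← pow_mul, ← pow_mul, ← mul_assoc, ← mul_assoc]
    show de (cj h 2 f) ^ (n1 * m * n3 * m' - 1) = 1
    have h6 : n1 * m * n3 * m' = (n1 * m * n3 * m' - 1) + 1 := by omega
    rw [h6, pow_succ] at h5
    have h7 : de (cj h 2 f) ^ (n1 * m * n3 * m' - 1) * de (cj h 2 f) = 1 * de (cj h 2 f) := by
      rw [one_mul]
      exact h5.symm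
    exact mul_right_cancel₀ hne h7
  · rintro _ ⟨g, hg, rfl⟩
    refine (hKfin.image (fun z => g * z)).subset ?_
    rintro f ⟨hf, hfg⟩
    have hfg' : (al (cj h 2 f), de (cj h 2 f)) = (al (cj h 2 g), de (cj h 2 g)) := hfg
    rw [Prod.mk.injEq] at hfg'
    refine ⟨g⁻¹ * f, ⟨?_, ?_⟩, by simp⟩
    · intro i hi
      rw [cj_mul]
      have h5 : cj h i g⁻¹ = (cj h i g)⁻¹ := by unfold cj; group
      rw [h5]
      exact mul_mem (inv_mem (hg i hi)) (hf i hi)
    · have h6 : cj h 2 g * cj h 2 (g⁻¹ * f) = cj h 2 f := by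
        rw [← cj_mul]
        congr 1
        group
      have h7 : cj h 2 (g⁻¹ * f) ∈ triAd k := by
        rw [cj_mul]
        have h5 : cj h 2 g⁻¹ = (cj h 2 g)⁻¹ := by unfold cj; group
        rw [h5]
        exact mul_mem (inv_mem (hg 2 (by omega))) (hf 2 (by omega))
      have h8 := triAd_le (hg 2 (by omega))
      have h9 := triAd_le h7
      obtain ⟨_, _, _, _, _, q1, q2⟩ := triAd_form (hg 2 (by omega))
      constructor
      · have h10 := al_mul h8 h9
        rw [h6, hfg'.1] at h10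
        exact (mul_eq_left₀ q1).1 h10.symm
      · have h10 := de_mul h8 h9
        rw [h6, hfg'.2] at h10
        exact (mul_eq_left₀ q2).1 h10.symm

end core

end Pool.Agent.Helper97.PA
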