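import Mathlib

/-!
# The affine and the triangular automorphisms of the affine plane
-/

set_option autoImplicit false

namespace Pool.Agent.Helper97.PA

open MvPolynomial

/-- the polynomials in two variables `x = X 0` and `y = X 1` over `k` -/
abbrev PP (k : Type) [Field k] : Type := MvPolynomial (Fin 2) k

/-- the automorphisms of the algebra `k[x, y]` -/
abbrev Au (k : Type) [Field k] : Type := PP k ≃ₐ[k] PP k

variable {k : Type} [Field k]

/-- `F = a x + b y + c` -/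
def Lin (F : PP k) : Prop := ∃ a b c : k, F = C a * X 0 + C b * X 1 + C c

/-- `φ x` and `φ y` have degree at most `1` -/
def IsAf (φ : Au k) : Prop := Lin (φ (X 0)) ∧ Lin (φ (X 1))

/-- `φ x = a x + p (y)` and `φ y = d y + c` -/
def IsTri (φ : Au k) : Prop :=
  (∃ (a : k) (p : Polynomial k), φ (X 0) = C a * X 0 + Polynomial.aeval (X 1) p) ∧
    ∃ d c : k, φ (X 1) = C d * X 1 + C c

theorem au_lin (φ : Au k) (a b c : k) :
    φ (C a * X 0 + C b * X 1 + C c) = C a * φ (X 0) + C b * φ (X 1) + C c := by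
  have h : ∀ r : k, φ (C r) = C r := fun r => φ.commutes r
  rw [map_add, map_add, map_mul, map_mul, h, h, h]

theorem au_C (φ : Au k) (r : k) : φ (C r) = C r := φ.commutes r

theorem au_aeval (φ : Au k) (F : PP k) (p : Polynomial k) :
    φ (Polynomial.aeval F p) = Polynomial.aeval (φ F) p := by
  rw [← Polynomial.aeval_algHom_apply]

theorem lin_comb {F G : PP k} (hF : Lin F) (hG : Lin G) (a b c : k) :
    Lin (C a * F + C b * G + C c) := by
  obtain ⟨a1, b1, c1, rfl⟩ := hF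
  obtain ⟨a2, b2, c2, rfl⟩ := hG
  refine ⟨a * a1 + b * a2, a * b1 + b * b2, a * c1 + b * c2 + c, ?_⟩
  simp only [C_add, C_mul]
  ring

theorem isAf_mul {φ ψ : Au k} (hφ : IsAf φ) (hψ : IsAf ψ) : IsAf (φ * ψ) := by
  obtain ⟨⟨a, b, c, h0⟩, ⟨a', b', c', h1⟩⟩ := hψ
  constructor
  · show Lin (φ (ψ (X 0)))
    rw [h0, au_lin]
    exact lin_comb hφ.1 hφ.2 _ _ _
  · show Lin (φ (ψ (X 1)))
    rw [h1, au_lin]
    exact lin_comb hφ.1 hφ.2 _ _ _

theorem isAf_one : IsAf (1 : Au k) :=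
  ⟨⟨1, 0, 0, by simp⟩, ⟨0, 1, 0, by simp⟩⟩

/-- the group of affine automorphisms -/
noncomputable def affine (k : Type) [Field k] : Subgroup (Au k) where
  carrier := {φ | IsAf φ ∧ IsAf φ⁻¹}
  one_mem' := ⟨isAf_one, by rw [inv_one]; exact isAf_one⟩
  mul_mem' := by
    rintro a b ⟨h1, h2⟩ ⟨h3, h4⟩
    refine ⟨isAf_mul h1 h3, ?_⟩
    rw [mul_inv_rev]
    exact isAf_mul h4 h2
  inv_mem' := by
    rintro a ⟨h1, h2⟩
    exact ⟨h2, by rw [inv_inv]; exact h1⟩

theorem isTri_mul {φ ψ : Au k} (hφ : IsTri φ) (hψ : IsTri ψ) : IsTri (φ * ψ) := by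
  obtain ⟨⟨a, p, h0⟩, ⟨d, c, h1⟩⟩ := hψ
  obtain ⟨⟨a', p', h0'⟩, ⟨d', c', h1'⟩⟩ := hφ
  constructor
  · refine ⟨a * a', Polynomial.C a * p' +
      p.comp (Polynomial.C d' * Polynomial.X + Polynomial.C c'), ?_⟩
    show φ (ψ (X 0)) = _
    rw [h0, map_add, map_mul, au_C, au_aeval, h0', h1', C_mul]
    simp only [map_add, map_mul, Polynomial.aeval_C, Polynomial.aeval_comp, Polynomial.aeval_X,
      algebraMap_eq]
    ring
  · refine ⟨d * d', d * c' + c, ?_⟩
    show φ (ψ (X 1)) = _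
    rw [h1, map_add, map_mul, au_C, au_C, h1', C_add, C_mul, C_mul]
    ring

theorem isTri_one : IsTri (1 : Au k) :=
  ⟨⟨1, 0, by simp⟩, ⟨1, 0, by simp⟩⟩

/-- the group of triangular automorphisms -/
noncomputable def triangular (k : Type) [Field k] : Subgroup (Au k) where
  carrier := {φ | IsTri φ ∧ IsTri φ⁻¹}
  one_mem' := ⟨isTri_one, by rw [inv_one]; exact isTri_one⟩
  mul_mem' := by
    rintro a b ⟨h1, h2⟩ ⟨h3, h4⟩
    refine ⟨isTri_mul h1 h3, ?_⟩
    rw [mul_inv_rev]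
    exact isTri_mul h4 h2
  inv_mem' := by
    rintro a ⟨h1, h2⟩
    exact ⟨h2, by rw [inv_inv]; exact h1⟩

/-- the group of tame automorphisms of the affine plane; all automorphisms are tame by the theorem
of Jung and van der Kulk -/
noncomputable def tame (k : Type) [Field k] : Subgroup (Au k) := affine k ⊔ triangular k

end Pool.Agent.Helper97.PA
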