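import Pool.Agent.Helper97.PA.Pol
import Pool.Graph.R_pool_sql_team_seeded_b0a926ef.R632.GE.Amg

/-!
# Alternating products of affine and triangular automorphisms
-/

set_option autoImplicit false

namespace Pool.Agent.Helper97.PA

open MvPolynomial
open Pool.Agent.R632.GE (RX)

variable {k : Type} [Field k]

/-- the two subgroups -/
noncomputable def XX (k : Type) [Field k] : Bool → Subgroup (Au k)
  | true => affine k
  | false => triangular k

/-- the degree of the image of a variable under the inverse -/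
noncomputable def dg (z : Au k) (i : Fin 2) : ℕ := (z⁻¹ (X i)).totalDegree

theorem inv_mul_X (a z : Au k) (i : Fin 2) : (a * z)⁻¹ (X i) = z⁻¹ (a⁻¹ (X i)) := by
  rw [mul_inv_rev]
  rfl

theorem dg_one (i : Fin 2) : dg (1 : Au k) i = 1 := by
  unfold dg
  rw [inv_one]
  exact totalDegree_X _

theorem dg_aff {a : Au k} (ha : a ∈ affine k) (ha' : a ∉ triangular k) {z : Au k}
    (h : dg z 1 < dg z 0) : dg (a * z) 0 ≤ dg (a * z) 1 ∧ 1 ≤ dg (a * z) 1 := by
  have hb : a⁻¹ ∈ affine k := inv_mem ha
  have hb' : a⁻¹ ∉ triangular k := fun h => ha' (by rw [← inv_inv a]; exact inv_mem h)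
  obtain ⟨u, v, w, u', v', w', h0, h1, hu⟩ := aff_not_tri hb hb'
  unfold dg at h ⊢
  rw [inv_mul_X, inv_mul_X, h0, h1, au_lin, au_lin, deg_comb hu _ _ h]
  refine ⟨(deg_comb_le _ _ _ _ _).trans (max_le le_rfl h.le), by omega⟩

theorem dg_tri {a : Au k} (ha : a ∈ triangular k) (ha' : a ∉ affine k) {z : Au k}
    (h : dg z 0 ≤ dg z 1) (h1 : 1 ≤ dg z 1) :
    dg (a * z) 1 < dg (a * z) 0 ∧ 1 ≤ dg (a * z) 1 := by
  have hb : a⁻¹ ∈ triangular k := inv_mem ha
  have hb' : a⁻¹ ∉ affine k := fun h => ha' (by rw [← inv_inv a]; exact inv_mem h)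
  obtain ⟨⟨⟨u, p, e0⟩, ⟨d, c, e1⟩⟩, _⟩ := hb
  have hp := tri_not_aff (inv_mem ha) hb' e0 e1
  obtain ⟨hu, hd, _⟩ := tri_ne (inv_mem ha) e0 e1
  unfold dg at h h1 ⊢
  rw [inv_mul_X, inv_mul_X, e0, e1]
  have f1 : (z⁻¹ (C d * X 1 + C c)).totalDegree = (z⁻¹ (X 1)).totalDegree := by
    have := deg_comb (k := k) hd 0 c (F := z⁻¹ (X 1)) (G := 0) (by
      rw [totalDegree_zero]
      omega)
    rw [mul_zero, add_zero] at this
    rw [map_add, map_mul, au_C, au_C]
    exact this
  have f2 : (Polynomial.aeval (z⁻¹ (X 1)) p).totalDegree =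
      p.natDegree * (z⁻¹ (X 1)).totalDegree := deg_aeval h1 (by omega)
  have f3 : 2 * (z⁻¹ (X 1)).totalDegree ≤ p.natDegree * (z⁻¹ (X 1)).totalDegree :=
    Nat.mul_le_mul_right _ hp
  have f4 : (z⁻¹ (C u * X 0 + Polynomial.aeval (X 1) p)).totalDegree =
      p.natDegree * (z⁻¹ (X 1)).totalDegree := by
    rw [map_add, map_mul, au_C, au_aeval, totalDegree_add_eq_right_of_totalDegree_lt, f2]
    rw [f2]
    refine (deg_C_mul_le _ _).trans_lt ?_
    omega
  rw [f1, f4]
  omega

theorem ping {i : Bool} {z : Au k} (h : RX (XX k) i z) :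
    (i = true → dg z 0 ≤ dg z 1 ∧ 1 ≤ dg z 1) ∧ (i = false → dg z 1 < dg z 0 ∧ 1 ≤ dg z 1) := by
  induction h with
  | base i a ha ha' =>
    cases i with
    | true =>
      refine ⟨fun _ => ?_, fun h => absurd h (by simp)⟩
      have hb : a⁻¹ ∈ affine k := inv_mem ha
      have hb' : a⁻¹ ∉ triangular k :=
        fun h => ha' (show a ∈ triangular k by rw [← inv_inv a]; exact inv_mem h)
      obtain ⟨u, v, w, u', v', w', h0, h1, hu⟩ := aff_not_tri hb hb'
      unfold dg
      rw [h0, h1]
      have e1 : ∀ a b c : k, (C a * X 0 + C b * X 1 + C c : PP k).totalDegree ≤ 1 := by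
        intro a b c
        refine (deg_comb_le _ _ _ _ _).trans ?_
        rw [totalDegree_X, totalDegree_X]
        exact le_rfl
      have e2 : 1 ≤ (C u' * X 0 + C v' * X 1 + C w' : PP k).totalDegree := by
        by_contra hcon
        have e3 : (C u' * X 0 + C v' * X 1 + C w' : PP k).totalDegree = 0 := by omega
        rw [totalDegree_eq_zero_iff_eq_C] at e3
        have e4 : (C u' * X 0 + C v' * X 1 + C w' : PP k) = C 0 * X 0 + C 0 * X 1 +
            C (coeff 0 (C u' * X 0 + C v' * X 1 + C w' : PP k)) := by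
          rw [← e3]
          simp
        exact hu (lin_inj e4).1
      exact ⟨(e1 _ _ _).trans e2, e2⟩
    | false =>
      refine ⟨fun h => absurd h (by simp), fun _ => ?_⟩
      have := dg_tri (z := (1 : Au k)) (show a ∈ triangular k from ha)
        (show a ∉ affine k from ha') (by rw [dg_one, dg_one]) (by rw [dg_one])
      rwa [mul_one] at this
  | step i a z ha ha' hz ih =>
    cases i with
    | true =>
      refine ⟨fun _ => ?_, fun h => absurd h (by simp)⟩
      exact dg_aff (show a ∈ affine k from ha) (show a ∉ triangular k from ha') (ih.2 rfl).1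
    | false =>
      refine ⟨fun h => absurd h (by simp), fun _ => ?_⟩
      exact dg_tri (show a ∈ triangular k from ha) (show a ∉ affine k from ha') (ih.1 rfl).1
        (ih.1 rfl).2

theorem aff_dg {z : Au k} (hz : z ∈ affine k) (i : Fin 2) : dg z i ≤ 1 := by
  have e1 : ∀ F : PP k, Lin F → F.totalDegree ≤ 1 := by
    rintro F ⟨a, b, c, rfl⟩
    refine (deg_comb_le _ _ _ _ _).trans ?_
    rw [totalDegree_X, totalDegree_X]
    exact le_rfl
  unfold dg
  obtain ⟨_, h0, h1⟩ := hz
  fin_cases i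
  · exact e1 _ h0
  · exact e1 _ h1

theorem RX_ne {i : Bool} {x : Au k} (h : RX (XX k) i x) : x ≠ 1 := by
  have key : ∀ y : Au k, RX (XX k) false y → y ∉ XX k true := by
    intro y hy hyA
    have h2 := (ping hy).2 rfl
    have h3 := aff_dg (show y ∈ affine k from hyA) 0
    omega
  cases i with
  | false =>
    rintro rfl
    exact key 1 h (one_mem _)
  | true =>
    cases h with
    | base _ _ ha ha' =>
      rintro rfl
      exact ha' (one_mem _)
    | step _ a z ha ha' hz =>
      intro h1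
      apply key z hz
      rw [eq_inv_of_mul_eq_one_right h1]
      exact inv_mem ha

end Pool.Agent.Helper97.PA
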