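import Pool.Agent.Helper97.PA.Core
import Pool.Agent.Helper97.PA.Ping
import Pool.Graph.R_seed8.Y529.FJ.Ext
import Pool.Graph.R_pool_sql_team_seeded_b0a926ef.R665.FJ.Am

/-!
# The vertex groups are in the class
-/

set_option autoImplicit false

namespace Pool.Agent.Helper97.PA

open MvPolynomial
open Pool.Agent.Y110.FJ (ClosedE Amg)
open Pool.Agent.R632.GE (RX amg)

section general

/-- extensions with solvable kernel -/
theorem ext_solv {C : ∀ (G : Type) [Group G], Prop} (hC : ClosedE C)
    (hs : ∀ (G : Type) [Group G], Group.IsSolvable G → C G) {G Q : Type} [Group G] [Group Q]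
    (J : G →* Q) (hN : Group.IsSolvable J.ker) (hQ : C Q) : C G := by
  refine Pool.Agent.Y529.FJ.t_ext C hC G J.ker (hs _ hN) ?_ ?_
  · exact hC.base.of_injective _ _ (QuotientGroup.kerLift J) (QuotientGroup.kerLift_injective _) hQ
  · intro g _
    apply hs
    let H : Subgroup G := J.ker ⊔ Subgroup.zpowers g
    have hH : H ≤ (Subgroup.zpowers (J g)).comap J := by
      refine sup_le ?_ ?_
      · intro x hx
        rw [Subgroup.mem_comap, J.mem_ker.1 hx]
        exact one_mem _
      · rw [Subgroup.zpowers_le]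
        exact Subgroup.mem_zpowers _
    let q : H →* Subgroup.zpowers (J g) :=
      (J.comp H.subtype).codRestrict _ (fun x => hH x.2)
    have : Group.IsSolvable (Subgroup.zpowers (J g)) := by
      refine Group.isSolvable_of_comm ?_
      rintro ⟨_, m, rfl⟩ ⟨_, n, rfl⟩
      exact Subtype.ext (zpow_mul_comm _ m n)
    refine Group.isSolvable_of_ker_le_range
      (Subgroup.inclusion (le_sup_left : J.ker ≤ H)) q ?_
    intro x hx
    have h1 : J x = 1 := congrArg Subtype.val (q.mem_ker.1 hx)
    exact ⟨⟨x, h1⟩, rfl⟩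

variable {G : Type} [Group G]

/-- amalgamated products and quotients -/
theorem amg_quot {A B K N : Subgroup G} [N.Normal] (h : Amg A B K) (hN : N ≤ K) :
    Amg (A.map (QuotientGroup.mk' N)) (B.map (QuotientGroup.mk' N))
      (K.map (QuotientGroup.mk' N)) := by
  refine ⟨Subgroup.map_mono h.le_left, Subgroup.map_mono h.le_right, ?_, ?_⟩
  · rw [← Subgroup.map_sup, h.gen]
    exact Subgroup.map_top_of_surjective _ (QuotientGroup.mk'_surjective N)
  · intro M _ f g hfg
    let πA : A →* A.map (QuotientGroup.mk' N) := (QuotientGroup.mk' N).subgroupMap A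
    let πB : B →* B.map (QuotientGroup.mk' N) := (QuotientGroup.mk' N).subgroupMap B
    obtain ⟨φ, h1, h2⟩ := h.univ M (f.comp πA) (g.comp πB)
      (fun c hc => hfg (QuotientGroup.mk' N c) (Subgroup.mem_map_of_mem _ hc))
    have hker : ∀ n ∈ N, φ n = 1 := by
      intro n hn
      have h3 := h1 ⟨n, h.le_left (hN hn)⟩
      rw [show φ n = (f.comp πA) ⟨n, h.le_left (hN hn)⟩ from h3]
      have h4 : πA ⟨n, h.le_left (hN hn)⟩ = 1 := by
        apply Subtype.ext
        exact (QuotientGroup.eq_one_iff n).2 hn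
      rw [MonoidHom.comp_apply, h4, map_one]
    refine ⟨QuotientGroup.lift N φ hker, ?_, ?_⟩
    · rintro ⟨_, a, ha, rfl⟩
      exact h1 ⟨a, ha⟩
    · rintro ⟨_, b, hb, rfl⟩
      exact h2 ⟨b, hb⟩

/-- coarser decompositions -/
theorem amg_coarse {A E B F : Subgroup G} (h : Amg A E B) (hB : B ≤ F) (hF : F ≤ E) :
    Amg (A ⊔ F) E F := by
  refine ⟨le_sup_right, hF, ?_, ?_⟩
  · rw [eq_top_iff, ← h.gen]
    exact sup_le_sup_right le_sup_left _
  · intro M _ f g hfg
    obtain ⟨φ, h1, h2⟩ := h.univ M (f.comp (Subgroup.inclusion le_sup_left)) g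
      (fun c hc => hfg c (hB hc))
    refine ⟨φ, ?_, h2⟩
    let L : Subgroup G := ((φ.comp (A ⊔ F).subtype).eqLocus f).map (A ⊔ F).subtype
    have hL : A ⊔ F ≤ L := by
      refine sup_le ?_ ?_
      · intro a ha
        exact ⟨⟨a, le_sup_left (a := A) (b := F) ha⟩, h1 ⟨a, ha⟩, rfl⟩
      · intro a ha
        refine ⟨⟨a, le_sup_right (a := A) (b := F) ha⟩, ?_, rfl⟩
        show φ a = f ⟨a, _⟩
        rw [hfg a ha]
        exact h2 ⟨a, hF ha⟩
    rintro ⟨x, hx⟩
    obtain ⟨y, hy, rfl⟩ := hL hx
    exact hy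

end general

variable {k : Type} [Field k]

/-! ### the triangular automorphisms -/

/-- the diagonal entries -/
noncomputable def chi (k : Type) [Field k] : triangular k →* (k × k)ˣ :=
  MonoidHom.toHomUnits
    { toFun := fun f => (al (f : Au k), de (f : Au k))
      map_one' := Prod.ext al_one de_one
      map_mul' := fun f g => Prod.ext (al_mul f.2 g.2) (de_mul f.2 g.2) }

theorem chi_ker {f : triangular k} (h : f ∈ (chi k).ker) : al (f : Au k) = 1 ∧
    de (f : Au k) = 1 := by
  have h1 := congrArg Units.val ((chi k).mem_ker.1 h)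
  exact ⟨congrArg Prod.fst h1, congrArg Prod.snd h1⟩

/-- the translation in `y` -/
noncomputable def tau (k : Type) [Field k] : (chi k).ker →* Multiplicative k where
  toFun f := Multiplicative.ofAdd (constantCoeff ((f : triangular k).1 (X 1)))
  map_one' := by
    show Multiplicative.ofAdd (constantCoeff (X 1 : PP k)) = _
    simp
  map_mul' f g := by
    obtain ⟨_, c, _, h1, _, _⟩ := tri_form f.1.2
    obtain ⟨_, c', _, h1', _, _⟩ := tri_form g.1.2
    rw [(chi_ker f.2).2, C_1, one_mul] at h1
    rw [(chi_ker g.2).2, C_1, one_mul] at h1'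
    rw [← ofAdd_add]
    congr 1
    show constantCoeff ((f : triangular k).1 ((g : triangular k).1 (X 1))) = _
    rw [h1', map_add, h1, au_C]
    simp

theorem triangular_solvable (k : Type) [Field k] : Group.IsSolvable (triangular k) := by
  have h1 : Group.IsSolvable (tau k).ker := by
    refine Group.isSolvable_of_comm ?_
    have key : ∀ f : (tau k).ker, ∃ p : Polynomial k,
        (f.1.1 : Au k) (X 0) = X 0 + Polynomial.aeval (X 1) p ∧ (f.1.1 : Au k) (X 1) = X 1 := by
      intro f
      obtain ⟨p, c, e0, e1, _, _⟩ := tri_form f.1.1.2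
      rw [(chi_ker f.1.2).2, C_1, one_mul] at e1
      rw [(chi_ker f.1.2).1, C_1, one_mul] at e0
      have h2 : constantCoeff ((f.1.1 : Au k) (X 1)) = 0 := (tau k).mem_ker.1 f.2
      rw [e1] at h2
      have h3 : c = 0 := by simpa using h2
      rw [h3, C_0, add_zero] at e1
      exact ⟨p, e0, e1⟩
    intro f g
    obtain ⟨p, e0, e1⟩ := key f
    obtain ⟨q, g0, g1⟩ := key g
    apply Subtype.ext
    apply Subtype.ext
    apply Subtype.ext
    apply AlgEquiv.coe_toAlgHom_injective
    apply MvPolynomial.algHom_ext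
    intro i
    fin_cases i
    · show (f.1.1 : Au k) ((g.1.1 : Au k) (X 0)) = (g.1.1 : Au k) ((f.1.1 : Au k) (X 0))
      rw [g0, e0, map_add, map_add, au_aeval, au_aeval, e0, e1, g0, g1]
      ring
    · show (f.1.1 : Au k) ((g.1.1 : Au k) (X 1)) = (g.1.1 : Au k) ((f.1.1 : Au k) (X 1))
      rw [g1, e1, g1]
  have h2 : Group.IsSolvable (chi k).ker := by
    refine Group.isSolvable_of_ker_le_range (tau k).ker.subtype (tau k) ?_
    rw [Subgroup.range_subtype]
  refine Group.isSolvable_of_ker_le_range (chi k).ker.subtype (chi k) ?_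
  rw [Subgroup.range_subtype]

/-! ### the translations -/

/-- the group of translations -/
noncomputable def trG (k : Type) [Field k] : Subgroup (Au k) where
  carrier := {f | Tr f}
  one_mem' := ⟨0, 0, by simp, by simp⟩
  mul_mem' := by
    rintro f g ⟨a, b, h0, h1⟩ ⟨a', b', h0', h1'⟩
    refine ⟨a + a', b + b', ?_, ?_⟩
    · show f (g (X 0)) = _
      rw [h0', map_add, h0, au_C, C_add, add_assoc]
    · show f (g (X 1)) = _
      rw [h1', map_add, h1, au_C, C_add, add_assoc]
  inv_mem' := by
    rintro f ⟨a, b, h0, h1⟩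
    have hX : ∀ i, f⁻¹ (f (X i)) = X i := fun i => f.symm_apply_apply _
    refine ⟨-a, -b, ?_, ?_⟩
    · have := hX 0
      rw [h0, map_add, au_C] at this
      rw [C_neg, ← sub_eq_add_neg, eq_sub_iff_add_eq]
      exact this
    · have := hX 1
      rw [h1, map_add, au_C] at this
      rw [C_neg, ← sub_eq_add_neg, eq_sub_iff_add_eq]
      exact this

theorem trG_comm {f g : Au k} (hf : f ∈ trG k) (hg : g ∈ trG k) : f * g = g * f := by
  obtain ⟨a, b, h0, h1⟩ := hf
  obtain ⟨a', b', h0', h1'⟩ := hg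
  apply AlgEquiv.coe_toAlgHom_injective
  apply MvPolynomial.algHom_ext
  intro i
  fin_cases i
  · show f (g (X 0)) = g (f (X 0))
    rw [h0', h0, map_add, map_add, h0, h0', au_C, au_C]
    ring
  · show f (g (X 1)) = g (f (X 1))
    rw [h1', h1, map_add, map_add, h1, h1', au_C, au_C]
    ring

theorem trG_normal {h n : Au k} (hh : h ∈ addG k) (hn : n ∈ trG k) : h * n * h⁻¹ ∈ trG k := by
  obtain ⟨a, b, h0, h1⟩ := hn
  have key : ∀ i, ∃ e : k, (h * n * h⁻¹) (X i) = X i + C e := by
    intro i
    obtain ⟨r, s, c, hr, hs, e⟩ := hh.2 i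
    refine ⟨r.eval a + s.eval b, ?_⟩
    have h2 : n (h⁻¹ (X i)) = h⁻¹ (X i) + C (r.eval a + s.eval b) := by
      rw [e, map_add, map_add, au_aeval, au_aeval, au_C, h0, h1, hr, hs, aeval_C', aeval_C',
        C_add]
      ring
    show h (n (h⁻¹ (X i))) = _
    rw [h2, map_add, au_C]
    congr 1
    exact h.apply_symm_apply _
  obtain ⟨e0, f0⟩ := key 0
  obtain ⟨e1, f1⟩ := key 1
  exact ⟨e0, e1, f0, f1⟩

theorem trG_le_affine : trG k ≤ affine k := by
  have key : ∀ f ∈ trG k, IsAf f := by
    rintro f ⟨a, b, h0, h1⟩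
    exact ⟨⟨1, 0, a, by rw [h0]; simp⟩, ⟨0, 1, b, by rw [h1]; simp⟩⟩
  intro f hf
  exact ⟨key f hf, key _ (inv_mem hf)⟩

theorem trG_le_triAd : trG k ≤ triAd k := by
  have key : ∀ f ∈ trG k, IsTA f := by
    rintro f ⟨a, b, h0, h1⟩
    exact ⟨⟨1, 0, a, ad_zero, by rw [h0]; simp⟩, ⟨1, b, by rw [h1]; simp⟩⟩
  intro f hf
  exact ⟨key f hf, key _ (inv_mem hf)⟩

theorem jac_tr {f : Au k} (hf : f ∈ trG k) : jac f = 1 := by
  obtain ⟨a, b, h0, h1⟩ := hf
  rw [← jac_one]
  ext i j
  unfold jac
  fin_cases j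
  · show constantCoeff (pderiv i (f (X 0))) = constantCoeff (pderiv i (X 0))
    rw [h0, map_add, pderiv_C, add_zero]
  · show constantCoeff (pderiv i (f (X 1))) = constantCoeff (pderiv i (X 1))
    rw [h1, map_add, pderiv_C, add_zero]

theorem jac_lin {f : Au k} {a b c a' b' c' : k} (h0 : f (X 0) = C a * X 0 + C b * X 1 + C c)
    (h1 : f (X 1) = C a' * X 0 + C b' * X 1 + C c') : jac f = !![a, a'; b, b'] := by
  ext i j
  unfold jac
  fin_cases i <;> fin_cases j <;> simp [h0, h1, pderiv_X]

theorem affine_ker {f : Au k} (hf : f ∈ affine k) (h : jac f = 1) : f ∈ trG k := by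
  obtain ⟨⟨⟨a, b, c, h0⟩, ⟨a', b', c', h1⟩⟩, _⟩ := hf
  rw [jac_lin h0 h1] at h
  have h00 := congrFun (congrFun h 0) 0
  have h01 := congrFun (congrFun h 0) 1
  have h10 := congrFun (congrFun h 1) 0
  have h11 := congrFun (congrFun h 1) 1
  simp at h00 h01 h10 h11
  subst h00 h01 h10 h11
  exact ⟨c, c', by rw [h0]; simp, by rw [h1]; simp⟩

/-! ### the additive group -/

/-- the group generated by the affine automorphisms and by the triangular automorphisms with
additive polynomials -/
noncomputable def hAd (k : Type) [Field k] : Subgroup (Au k) := affine k ⊔ triAd k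

theorem hAd_le : hAd k ≤ addG k := sup_le affine_le triAd_le_addG

/-- reduced products -/
theorem RX_hAd {i : Bool} {z : hAd k}
    (h : RX (fun b : Bool => (if b then affine k else triAd k).subgroupOf (hAd k)) i z) :
    RX (XX k) i (z : Au k) := by
  have hto : ∀ (i : Bool) (a : hAd k),
      a ∈ (if i then affine k else triAd k).subgroupOf (hAd k) →
      a ∉ (if (!i) then affine k else triAd k).subgroupOf (hAd k) →
      (a : Au k) ∈ XX k i ∧ (a : Au k) ∉ XX k (!i) := by
    intro i a h1 h2
    cases i with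
    | true =>
      refine ⟨h1, fun h3 => h2 ?_⟩
      exact inter (hAd_le a.2) h3
    | false =>
      refine ⟨triAd_le (show (a : Au k) ∈ triAd k from h1), fun h3 => h2 h3⟩
  induction h with
  | base i a ha ha' => exact RX.base i _ (hto i a ha ha').1 (hto i a ha ha').2
  | step i a z ha ha' _ ih =>
    exact RX.step i _ _ (hto i a ha ha').1 (hto i a ha ha').2 ih

theorem C_hAd {C : ∀ (G : Type) [Group G], Prop} (hC : ClosedE C)
    (hs : ∀ (G : Type) [Group G], Group.IsSolvable G → C G)
    (hGL : C (Matrix (Fin 2) (Fin 2) k)ˣ) : C (hAd k) := by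
  let X' : Bool → Subgroup (hAd k) :=
    fun b => (if b then affine k else triAd k).subgroupOf (hAd k)
  have hne : ∀ i z, RX X' i z → z ≠ 1 := by
    intro i z hz h1
    refine RX_ne (RX_hAd hz) ?_
    rw [h1]
    rfl
  have hgen : X' true ⊔ X' false = ⊤ := by
    show (affine k).subgroupOf (hAd k) ⊔ (triAd k).subgroupOf (hAd k) = ⊤
    rw [← Subgroup.subgroupOf_sup (show affine k ≤ hAd k from le_sup_left)
      (show triAd k ≤ hAd k from le_sup_right)]
    exact Subgroup.subgroupOf_self (hAd k)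
  have hamg := amg X' hne hgen
  let N : Subgroup (hAd k) := (trG k).subgroupOf (hAd k)
  have hN : N.Normal := ⟨fun n hn g => trG_normal (hAd_le g.2) hn⟩
  have hNK : N ≤ X' true ⊓ X' false := fun n hn => ⟨trG_le_affine hn, trG_le_triAd hn⟩
  have hamgQ := amg_quot hamg hNK
  let J : hAd k →* (Matrix (Fin 2) (Fin 2) k)ˣ := (jacH k).comp (Subgroup.inclusion hAd_le)
  have hJv : ∀ x, (J x).val = jac (x : Au k) := fun x => rfl
  have hJN : ∀ n ∈ N, J n = 1 := by
    intro n hn
    apply Units.ext
    rw [hJv]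
    exact jac_tr hn
  let J' : hAd k ⧸ N →* (Matrix (Fin 2) (Fin 2) k)ˣ := QuotientGroup.lift N J hJN
  have hJA : ∀ a ∈ (X' true).map (QuotientGroup.mk' N), J' a = 1 → a = 1 := by
    rintro _ ⟨a, ha, rfl⟩ h1
    have h2 : J a = 1 := h1
    have h3 : jac (a : Au k) = 1 := congrArg Units.val h2
    exact (QuotientGroup.eq_one_iff a).2 (affine_ker ha h3)
  have hA : C ((X' true).map (QuotientGroup.mk' N)) := by
    refine hC.base.of_injective _ _ (J'.comp ((X' true).map (QuotientGroup.mk' N)).subtype) ?_ hGL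
    rw [injective_iff_map_eq_one]
    intro a ha
    exact Subtype.ext (hJA a a.2 ha)
  have hsolv : Group.IsSolvable (triangular k) := triangular_solvable k
  have hE' : Group.IsSolvable (X' false) := by
    let ι : X' false →* triangular k :=
      { toFun := fun x => ⟨x.1.1, triAd_le x.2⟩
        map_one' := rfl
        map_mul' := fun _ _ => rfl }
    refine Group.isSolvable_of_isSolvable_injective (f := ι) ?_
    intro x y h
    apply Subtype.ext
    apply Subtype.ext
    exact congrArg (fun z : triangular k => (z : Au k)) h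
  have hE : C ((X' false).map (QuotientGroup.mk' N)) := by
    apply hs
    exact Group.isSolvable_of_surjective (f := (QuotientGroup.mk' N).subgroupMap (X' false))
      (MonoidHom.subgroupMap_surjective _ _)
  have hQ : C (hAd k ⧸ N) := by
    refine Pool.Agent.R665.FJ.am hC _ _ _ hA hE hGL hamgQ J' ?_
    intro x hx
    exact hJA x (hamgQ.le_left hx)
  refine ext_solv hC hs (QuotientGroup.mk' N) ?_ hQ
  refine Group.isSolvable_of_comm ?_
  intro a b
  have key : ∀ x : (QuotientGroup.mk' N).ker, (x.1.1 : Au k) ∈ trG k := fun x =>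
    (QuotientGroup.eq_one_iff x.1).1 x.2
  exact Subtype.ext (Subtype.ext (trG_comm (key a) (key b)))

end Pool.Agent.Helper97.PA
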