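import Pool.Agent.Helper97.PA.Grp
import Pool.Graph.R_pool_sql_team_seeded_3997aac3.Q27.FJT.AmgTree
import Pool.Graph.R_pool_sql_team_seeded_3997aac3.Q182.CylVc

/-!
# The tree and the main theorem
-/

set_option autoImplicit false

namespace Pool.Agent.Helper97.PA

open MvPolynomial
open Pool.Agent.Y110.FJ (ClosedE Amg)
open Pool.Agent.R632.GE (RX amg)
open Q27.FJT
open Q182.Cyl (ClosedA)
open Pool.Agent.Helper270.Tree

variable {k : Type} [Field k]

/-- the affine automorphisms in the tame group -/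
noncomputable abbrev tA (k : Type) [Field k] : Subgroup (tame k) := (affine k).subgroupOf (tame k)

/-- the triangular automorphisms in the tame group -/
noncomputable abbrev tE (k : Type) [Field k] : Subgroup (tame k) :=
  (triangular k).subgroupOf (tame k)

/-- the additive triangular automorphisms in the tame group -/
noncomputable abbrev tF (k : Type) [Field k] : Subgroup (tame k) := (triAd k).subgroupOf (tame k)

/-- the additive group in the tame group -/
noncomputable abbrev tH (k : Type) [Field k] : Subgroup (tame k) := tA k ⊔ tF k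

theorem RX_tame {i : Bool} {z : tame k}
    (h : RX (fun b : Bool => (if b then affine k else triangular k).subgroupOf (tame k)) i z) :
    RX (XX k) i (z : Au k) := by
  have hto : ∀ (i : Bool) (a : tame k),
      a ∈ (if i then affine k else triangular k).subgroupOf (tame k) →
      a ∉ (if (!i) then affine k else triangular k).subgroupOf (tame k) →
      (a : Au k) ∈ XX k i ∧ (a : Au k) ∉ XX k (!i) := by
    intro i a h1 h2
    cases i with
    | true => exact ⟨h1, fun h3 => h2 h3⟩
    | false => exact ⟨h1, fun h3 => h2 h3⟩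
  induction h with
  | base i a ha ha' => exact RX.base i _ (hto i a ha ha').1 (hto i a ha ha').2
  | step i a z ha ha' _ ih =>
    exact RX.step i _ _ (hto i a ha ha').1 (hto i a ha ha').2 ih

theorem amg_tame (k : Type) [Field k] : Amg (tA k) (tE k) (tA k ⊓ tE k) := by
  let X' : Bool → Subgroup (tame k) :=
    fun b => (if b then affine k else triangular k).subgroupOf (tame k)
  have hne : ∀ i z, RX X' i z → z ≠ 1 := by
    intro i z hz h1
    refine RX_ne (RX_tame hz) ?_
    rw [h1]
    rfl
  have hgen : X' true ⊔ X' false = ⊤ := by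
    show (affine k).subgroupOf (tame k) ⊔ (triangular k).subgroupOf (tame k) = ⊤
    rw [← Subgroup.subgroupOf_sup (show affine k ≤ tame k from le_sup_left)
      (show triangular k ≤ tame k from le_sup_right)]
    exact Subgroup.subgroupOf_self (tame k)
  exact amg X' hne hgen

/-- the decomposition used for the tree -/
theorem amg_tree (k : Type) [Field k] : Amg (tH k) (tE k) (tF k) := by
  refine amg_coarse (amg_tame k) ?_ ?_
  · rintro x ⟨hx, hx'⟩
    exact inter (affine_le hx) hx'
  · intro x hx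
    exact triAd_le (show (x : Au k) ∈ triAd k from hx)

theorem tH_le {x : tame k} (hx : x ∈ tH k) : (x : Au k) ∈ hAd k := by
  have h : tH k ≤ (hAd k).subgroupOf (tame k) := by
    refine sup_le ?_ ?_
    · intro y hy
      exact le_sup_left (a := affine k) hy
    · intro y hy
      exact le_sup_right (b := triAd k) hy
  exact h hx

theorem treeAct (k : Type) [Field k] : TreeAct (tame k) (atree (tH k) (tE k)) where
  isTree := isTree (amg_tree k)
  adj g _ _ h := atree_adj g h
  noInv g u v h := noInv g u v h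

/-- an element which fixes both end points of an edge -/
theorem fix_edge {f g : tame k} (h1 : f • vA (tH k) (tE k) g = vA (tH k) (tE k) g)
    (h2 : f • vB (tH k) (tE k) g = vB (tH k) (tE k) g) :
    ((g : Au k))⁻¹ * (f : Au k) * (g : Au k) ∈ triAd k := by
  rw [smul_vA, eq_comm, vA_eq] at h1
  rw [smul_vB, eq_comm, vB_eq] at h2
  have h3 : ((g⁻¹ * (f * g) : tame k) : Au k) ∈ addG k := hAd_le (tH_le h1)
  have h4 : ((g⁻¹ * (f * g) : tame k) : Au k) ∈ triangular k := h2
  have h5 := inter h3 h4
  rw [mul_assoc]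
  exact h5

/-- **stabilizers of pairs of distant vertices are finite** -/
theorem finite_far (v w : VV (tH k) (tE k)) (hvw : 7 ≤ (atree (tH k) (tE k)).dist v w) :
    {f : tame k | f • v = v ∧ f • w = w}.Finite := by
  have hT := treeAct k
  obtain ⟨q, q0, qd, hadj, hdist, hne⟩ := exists_geod hT.isTree v w
  set n := (atree (tH k) (tE k)).dist v w with hn
  -- every edge comes from an element
  have hedge : ∀ i < n, ∃ g : tame k,
      (q i = vA (tH k) (tE k) g ∧ q (i + 1) = vB (tH k) (tE k) g) ∨
      (q (i + 1) = vA (tH k) (tE k) g ∧ q i = vB (tH k) (tE k) g) := fun i hi => hadj i hi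
  -- a starting point of triangular type
  obtain ⟨j, hj, g0, hjg⟩ : ∃ j ≤ 1, ∃ g0, q j = vB (tH k) (tE k) g0 := by
    obtain ⟨g, h | h⟩ := hedge 0 (by omega)
    · exact ⟨1, le_rfl, g, h.2⟩
    · exact ⟨0, by omega, g, h.2⟩
  -- the types
  have htyB : ∀ i, i ≤ 3 → ∃ g, q (j + 2 * i) = vB (tH k) (tE k) g := by
    intro i
    induction i with
    | zero => exact fun _ => ⟨g0, hjg⟩
    | succ i ih =>
      intro hi
      obtain ⟨g, hg⟩ := ih (by omega)
      obtain ⟨a, h | h⟩ := hedge (j + 2 * i) (by omega)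
      · rw [h.1] at hg
        exact absurd hg Sum.inl_ne_inr
      · obtain ⟨b, h' | h'⟩ := hedge (j + 2 * i + 1) (by omega)
        · exact ⟨b, h'.2⟩
        · rw [h'.2] at h
          exact absurd h.1.symm Sum.inl_ne_inr
  have hB : ∀ i, i < 3 → ∃ a, q (j + 2 * i) = vB (tH k) (tE k) a ∧
      q (j + 2 * i + 1) = vA (tH k) (tE k) a := by
    intro i hi
    obtain ⟨g, hg⟩ := htyB i (by omega)
    obtain ⟨a, h | h⟩ := hedge (j + 2 * i) (by omega)
    · rw [h.1] at hg
      exact absurd hg Sum.inl_ne_inr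
    · exact ⟨a, h.2, h.1⟩
  have hA : ∀ i, i < 3 → ∃ a, q (j + 2 * i + 1) = vA (tH k) (tE k) a ∧
      q (j + 2 * i + 2) = vB (tH k) (tE k) a := by
    intro i hi
    obtain ⟨g, hg⟩ := htyB (i + 1) (by omega)
    obtain ⟨a, h | h⟩ := hedge (j + 2 * i + 1) (by omega)
    · exact ⟨a, h⟩
    · have h1 : q (j + 2 * (i + 1)) = q (j + 2 * i + 1 + 1) := rfl
      rw [h1, h.1] at hg
      exact absurd hg Sum.inl_ne_inr
  obtain ⟨a0, a0B, a0A⟩ := hB 0 (by omega)
  obtain ⟨a1, a1A, a1B⟩ := hA 0 (by omega)
  obtain ⟨a2, a2B, a2A⟩ := hB 1 (by omega)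
  obtain ⟨a3, a3A, a3B⟩ := hA 1 (by omega)
  obtain ⟨a4, a4B, a4A⟩ := hB 2 (by omega)
  obtain ⟨a5, a5A, a5B⟩ := hA 2 (by omega)
  simp only [mul_zero, add_zero, mul_one] at a0B a0A a1A a1B a2B a2A a3A a3B
  norm_num at a4B a4A a5A a5B
  let h : ℕ → Au k := fun i => match i with
    | 0 => a0
    | 1 => a1
    | 2 => a2
    | 3 => a3
    | 4 => a4
    | _ => a5
  -- turns
  have tAtA : ∀ {x y : tame k} {i : ℕ}, q i = vA (tH k) (tE k) x → q i = vA (tH k) (tE k) y →
      ((x : Au k))⁻¹ * (y : Au k) ∈ addG k := by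
    intro x y i h1 h2
    rw [h1, vA_eq] at h2
    exact hAd_le (tH_le h2)
  have tBtB : ∀ {x y : tame k} {i : ℕ}, q i = vB (tH k) (tE k) x → q i = vB (tH k) (tE k) y →
      ((x : Au k))⁻¹ * (y : Au k) ∈ triangular k := by
    intro x y i h1 h2
    rw [h1, vB_eq] at h2
    exact h2
  have nB : ∀ {x y : tame k} {i : ℕ}, i + 2 ≤ n → q i = vB (tH k) (tE k) x →
      q (i + 2) = vB (tH k) (tE k) y → ((x : Au k))⁻¹ * (y : Au k) ∉ triangular k := by
    intro x y i hi h1 h2 h3
    apply hne i hi
    rw [h1, h2, vB_eq]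
    exact h3
  have nA : ∀ {x y : tame k} {i i' : ℕ}, i + 2 ≤ n → q i = vA (tH k) (tE k) x →
      q (i + 2) = vA (tH k) (tE k) y → q i' = vB (tH k) (tE k) x → q i' = vB (tH k) (tE k) y →
      ((x : Au k))⁻¹ * (y : Au k) ∉ addG k := by
    intro x y i i' hi h1 h2 h4 h5 h3
    apply hne i hi
    rw [h1, h2, vA_eq]
    have h6 : ((x : Au k))⁻¹ * (y : Au k) ∈ triAd k := inter h3 (tBtB h4 h5)
    exact le_sup_right (a := tA k) (show x⁻¹ * y ∈ tF k from h6)
  have hcore := core h (tAtA a0A a1A) (nB (by omega) a0B a1B) (tBtB a1B a2B)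
    (nA (by omega) a1A a2A a1B a2B) (tAtA a2A a3A) (nB (by omega) a2B a3B) (tBtB a3B a4B)
    (nA (by omega) a3A a4A a3B a4B) (tAtA a4A a5A) (nB (by omega) a4B a5B)
  refine Set.Finite.of_injOn (f := fun f : tame k => (f : Au k)) ?_
    (Subtype.val_injective.injOn) hcore
  rintro f ⟨hfv, hfw⟩ i hi
  have hfix : ∀ i ≤ n, f • q i = q i := by
    intro i hi
    have hd := hdist i hi
    exact hT.convex hfv hfw (by rw [hd.1, hd.2]; omega)
  have hE : ∀ (a : tame k) (i i' : ℕ), i ≤ n → i' ≤ n → q i = vA (tH k) (tE k) a →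
      q i' = vB (tH k) (tE k) a → ((a : Au k))⁻¹ * (f : Au k) * (a : Au k) ∈ triAd k := by
    intro a i i' hi hi' h1 h2
    refine fix_edge ?_ ?_
    · rw [← h1]
      exact hfix i hi
    · rw [← h2]
      exact hfix i' hi'
  show ((h i))⁻¹ * (f : Au k) * h i ∈ triAd k
  interval_cases i
  · exact hE a0 _ _ (by omega) (by omega) a0A a0B
  · exact hE a1 _ _ (by omega) (by omega) a1A a1B
  · exact hE a2 _ _ (by omega) (by omega) a2A a2B
  · exact hE a3 _ _ (by omega) (by omega) a3A a3B
  · exact hE a4 _ _ (by omega) (by omega) a4A a4B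
  · exact hE a5 _ _ (by omega) (by omega) a5A a5B

/-- the tame group is in the class if `GL₂(k)` is -/
theorem C_tame {C : ∀ (G : Type) [Group G], Prop} (hC : ClosedA C)
    (hs : ∀ (G : Type) [Group G], Group.IsSolvable G → C G)
    (hGL : C (Matrix (Fin 2) (Fin 2) k)ˣ) : C (tame k) := by
  have hT := treeAct k
  have hH : C (hAd k) := C_hAd hC.base hs hGL
  have hE : C (triangular k) := hs _ (triangular_solvable k)
  refine hC.acyl (tame k) (tame k) (VV (tH k) (tE k)) (MonoidHom.id _) (atree (tH k) (tE k)) 7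
    (fun g => ⟨g, rfl⟩) hT.isTree hT.adj hT.noInv finite_far ?_ ?_
  · intro v
    rcases vertex_cases v with ⟨g, rfl⟩ | ⟨g, rfl⟩
    · have hmem : ∀ f : tame k, f • vA (tH k) (tE k) g = vA (tH k) (tE k) g →
          g⁻¹ * f * g ∈ tH k := by
        intro f hf
        rw [smul_vA, eq_comm, vA_eq] at hf
        rw [mul_assoc]
        exact hf
      let ι : (MulAction.stabilizer (tame k) (vA (tH k) (tE k) g)).comap (MonoidHom.id _) →*
          hAd k :=
        { toFun := fun f => ⟨((g⁻¹ * f.1 * g : tame k) : Au k), tH_le (hmem f.1 f.2)⟩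
          map_one' := by
            apply Subtype.ext
            show ((g⁻¹ * 1 * g : tame k) : Au k) = 1
            simp
          map_mul' := fun x y => by
            apply Subtype.ext
            have h0 : g⁻¹ * (x.1 * y.1) * g = (g⁻¹ * x.1 * g) * (g⁻¹ * y.1 * g) := by group
            exact congrArg (fun z : tame k => (z : Au k)) h0 }
      refine hC.base.base.of_injective _ _ ι ?_ hH
      intro x y hxy
      have h1 : ((g⁻¹ * x.1 * g : tame k) : Au k) = ((g⁻¹ * y.1 * g : tame k) : Au k) :=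
        congrArg (fun z : hAd k => (z : Au k)) hxy
      exact Subtype.ext (mul_left_cancel (mul_right_cancel (Subtype.ext h1)))
    · have hmem : ∀ f : tame k, f • vB (tH k) (tE k) g = vB (tH k) (tE k) g →
          g⁻¹ * f * g ∈ tE k := by
        intro f hf
        rw [smul_vB, eq_comm, vB_eq] at hf
        rw [mul_assoc]
        exact hf
      let ι : (MulAction.stabilizer (tame k) (vB (tH k) (tE k) g)).comap (MonoidHom.id _) →*
          triangular k :=
        { toFun := fun f => ⟨((g⁻¹ * f.1 * g : tame k) : Au k), hmem f.1 f.2⟩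
          map_one' := by
            apply Subtype.ext
            show ((g⁻¹ * 1 * g : tame k) : Au k) = 1
            simp
          map_mul' := fun x y => by
            apply Subtype.ext
            have h0 : g⁻¹ * (x.1 * y.1) * g = (g⁻¹ * x.1 * g) * (g⁻¹ * y.1 * g) := by group
            exact congrArg (fun z : tame k => (z : Au k)) h0 }
      refine hC.base.base.of_injective _ _ ι ?_ hE
      intro x y hxy
      have h1 : ((g⁻¹ * x.1 * g : tame k) : Au k) = ((g⁻¹ * y.1 * g : tame k) : Au k) :=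
        congrArg (fun z : triangular k => (z : Au k)) hxy
      exact Subtype.ext (mul_left_cancel (mul_right_cancel (Subtype.ext h1)))
  · intro W hW
    exact Q182.Cyl.vcyc_mem hC.base.base hW

/-! ### linear substitutions -/

/-- the substitution given by a matrix -/
noncomputable def linS (M : Matrix (Fin 2) (Fin 2) k) : PP k →ₐ[k] PP k :=
  MvPolynomial.aeval (fun j => C (M 0 j) * X 0 + C (M 1 j) * X 1)

theorem linS_X (M : Matrix (Fin 2) (Fin 2) k) (j : Fin 2) :
    linS M (X j) = C (M 0 j) * X 0 + C (M 1 j) * X 1 := by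
  unfold linS
  rw [aeval_X]

theorem linS_C (M : Matrix (Fin 2) (Fin 2) k) (c : k) : linS M (C c) = C c := by
  unfold linS
  rw [aeval_C, algebraMap_eq]

theorem linS_one : linS (1 : Matrix (Fin 2) (Fin 2) k) = 1 := by
  apply MvPolynomial.algHom_ext
  intro j
  rw [linS_X]
  fin_cases j
  · show C ((1 : Matrix (Fin 2) (Fin 2) k) 0 0) * X 0 + C ((1 : Matrix (Fin 2) (Fin 2) k) 1 0) *
      X 1 = X 0
    simp
  · show C ((1 : Matrix (Fin 2) (Fin 2) k) 0 1) * X 0 + C ((1 : Matrix (Fin 2) (Fin 2) k) 1 1) *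
      X 1 = X 1
    simp

theorem linS_mul (M N : Matrix (Fin 2) (Fin 2) k) : linS (M * N) = linS M * linS N := by
  apply MvPolynomial.algHom_ext
  intro j
  have h : (linS M * linS N) (X j) = linS M (linS N (X j)) := rfl
  rw [h, linS_X, linS_X, map_add, map_mul, map_mul, linS_C, linS_C, linS_X, linS_X,
    Matrix.mul_apply, Matrix.mul_apply, Fin.sum_univ_two, Fin.sum_univ_two, C_add, C_add, C_mul,
    C_mul, C_mul, C_mul]
  ring

/-- the substitution given by a matrix -/
noncomputable def linSub (k : Type) [Field k] :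
    Matrix (Fin 2) (Fin 2) k →* (PP k →ₐ[k] PP k) where
  toFun := linS
  map_one' := linS_one
  map_mul' := linS_mul

/-- linear substitutions as automorphisms -/
noncomputable def linAut (k : Type) [Field k] : (Matrix (Fin 2) (Fin 2) k)ˣ →* Au k :=
  (AlgEquiv.algHomUnitsEquiv k (PP k)).toMonoidHom.comp (Units.map (linSub k))

theorem linAut_X (M : (Matrix (Fin 2) (Fin 2) k)ˣ) (j : Fin 2) :
    linAut k M (X j) = C (M.val 0 j) * X 0 + C (M.val 1 j) * X 1 + C 0 := by
  show linS M.val (X j) = _
  rw [linS_X, C_0, add_zero]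

theorem linAut_mem (M : (Matrix (Fin 2) (Fin 2) k)ˣ) : linAut k M ∈ tame k := by
  have key : ∀ M, IsAf (linAut k M) := fun M =>
    ⟨⟨_, _, _, linAut_X M 0⟩, ⟨_, _, _, linAut_X M 1⟩⟩
  refine (le_sup_left : affine k ≤ tame k) ⟨key M, ?_⟩
  rw [← map_inv]
  exact key _

theorem C_GL {C : ∀ (G : Type) [Group G], Prop} (hC : ClosedA C) (h : C (tame k)) :
    C (Matrix (Fin 2) (Fin 2) k)ˣ := by
  refine hC.base.base.of_injective _ _ ((linAut k).codRestrict (tame k) linAut_mem) ?_ h
  intro M N hMN
  have h1 : linAut k M = linAut k N := congrArg Subtype.val hMN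
  apply Units.ext
  ext i j
  have h2 : linAut k M (X j) = linAut k N (X j) := by rw [h1]
  rw [linAut_X, linAut_X] at h2
  obtain ⟨h3, h4, _⟩ := lin_inj h2
  fin_cases i
  · exact h3
  · exact h4

end Pool.Agent.Helper97.PA
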