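import Pool.Agent.Helper97.PA.Def

/-!
# Coefficients and degrees
-/

set_option autoImplicit false

namespace Pool.Agent.Helper97.PA

open MvPolynomial

variable {k : Type} [Field k]

theorem lin_inj {a b c a' b' c' : k}
    (h : (C a * X 0 + C b * X 1 + C c : PP k) = C a' * X 0 + C b' * X 1 + C c') :
    a = a' ∧ b = b' ∧ c = c' := by
  have h0 := congrArg (MvPolynomial.eval (![0, 0] : Fin 2 → k)) h
  have h1 := congrArg (MvPolynomial.eval (![1, 0] : Fin 2 → k)) h
  have h2 := congrArg (MvPolynomial.eval (![0, 1] : Fin 2 → k)) h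
  simp at h0 h1 h2
  subst h0
  exact ⟨by simpa using h1, by simpa using h2, rfl⟩

theorem sep {a b : k} {p q : Polynomial k}
    (h : (C a * X 0 + Polynomial.aeval (X 1) p : PP k) = C b * X 0 + Polynomial.aeval (X 1) q) :
    a = b ∧ p = q := by
  have h0 := congrArg (MvPolynomial.aeval (![0, Polynomial.X] : Fin 2 → Polynomial k)) h
  have e : ∀ r : Polynomial k,
      MvPolynomial.aeval (![0, Polynomial.X] : Fin 2 → Polynomial k)
        (Polynomial.aeval (X 1 : PP k) r) = r := by
    intro r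
    rw [← Polynomial.aeval_algHom_apply]
    simp
  rw [map_add, map_add, e, e] at h0
  simp at h0
  subst h0
  refine ⟨?_, rfl⟩
  have h1 := add_right_cancel h
  have h2 := congrArg (MvPolynomial.eval (![1, 0] : Fin 2 → k)) h1
  simpa using h2

theorem deg_C_mul {a : k} (ha : a ≠ 0) (F : PP k) : (C a * F).totalDegree = F.totalDegree := by
  by_cases hF : F = 0
  · rw [hF, mul_zero]
  · rw [totalDegree_mul_of_isDomain (by simpa using ha) hF, totalDegree_C, zero_add]

theorem deg_C_mul_le (a : k) (F : PP k) : (C a * F).totalDegree ≤ F.totalDegree := by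
  by_cases ha : a = 0
  · rw [ha, C_0, zero_mul, totalDegree_zero]
    exact Nat.zero_le _
  · rw [deg_C_mul ha]

theorem deg_pow (F : PP k) (n : ℕ) : (F ^ n).totalDegree = n * F.totalDegree := by
  by_cases hF : F = 0
  · subst hF
    rw [totalDegree_zero, mul_zero]
    cases n with
    | zero => rw [pow_zero, totalDegree_one]
    | succ n => rw [zero_pow (by omega), totalDegree_zero]
  · induction n with
    | zero => rw [pow_zero, totalDegree_one, zero_mul]
    | succ n ih =>
      rw [pow_succ, totalDegree_mul_of_isDomain (pow_ne_zero _ hF) hF, ih]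
      ring

theorem deg_comb_le (a b c : k) (F G : PP k) :
    (C a * F + C b * G + C c).totalDegree ≤ max F.totalDegree G.totalDegree := by
  refine (totalDegree_add _ _).trans (max_le ((totalDegree_add _ _).trans
    (max_le_max (deg_C_mul_le _ _) (deg_C_mul_le _ _))) ?_)
  rw [totalDegree_C]
  exact Nat.zero_le _

theorem deg_comb {a : k} (ha : a ≠ 0) (b c : k) {F G : PP k}
    (h : G.totalDegree < F.totalDegree) :
    (C a * F + C b * G + C c).totalDegree = F.totalDegree := by
  have h1 : (C a * F + C b * G).totalDegree = F.totalDegree := by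
    rw [totalDegree_add_eq_left_of_totalDegree_lt, deg_C_mul ha]
    rw [deg_C_mul ha]
    exact (deg_C_mul_le _ _).trans_lt h
  rw [totalDegree_add_eq_left_of_totalDegree_lt, h1]
  rw [h1, totalDegree_C]
  omega

theorem deg_aeval_le (F : PP k) (p : Polynomial k) :
    (Polynomial.aeval F p).totalDegree ≤ p.natDegree * F.totalDegree := by
  rw [Polynomial.aeval_eq_sum_range]
  refine (totalDegree_finsetSum_le ?_)
  intro i hi
  rw [Finset.mem_range] at hi
  refine (totalDegree_smul_le _ _).trans ?_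
  rw [deg_pow]
  exact Nat.mul_le_mul_right _ (by omega)

theorem deg_aeval {F : PP k} (hF : 1 ≤ F.totalDegree) {p : Polynomial k}
    (hp : 1 ≤ p.natDegree) :
    (Polynomial.aeval F p).totalDegree = p.natDegree * F.totalDegree := by
  have h0 : p.leadingCoeff ≠ 0 := by
    rw [Polynomial.leadingCoeff_ne_zero]
    rintro rfl
    simp at hp
  have h1 := Polynomial.eraseLead_add_C_mul_X_pow p
  have h2 : Polynomial.aeval F p = Polynomial.aeval F p.eraseLead +
      C p.leadingCoeff * F ^ p.natDegree := by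
    conv_lhs => rw [← h1]
    rw [map_add, map_mul, Polynomial.aeval_C, map_pow, Polynomial.aeval_X]
    rfl
  have h3 : (C p.leadingCoeff * F ^ p.natDegree).totalDegree = p.natDegree * F.totalDegree := by
    rw [deg_C_mul h0, deg_pow]
  rw [h2, totalDegree_add_eq_right_of_totalDegree_lt, h3]
  rw [h3]
  refine (deg_aeval_le _ _).trans_lt ?_
  have h4 := p.eraseLead_natDegree_le
  exact Nat.mul_lt_mul_of_pos_right (by omega) hF

/-- the affine automorphisms which are not triangular -/
theorem aff_not_tri {φ : Au k} (h : φ ∈ affine k) (h' : φ ∉ triangular k) :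
    ∃ a b c a' b' c' : k, φ (X 0) = C a * X 0 + C b * X 1 + C c ∧
      φ (X 1) = C a' * X 0 + C b' * X 1 + C c' ∧ a' ≠ 0 := by
  obtain ⟨⟨⟨a, b, c, h0⟩, ⟨a', b', c', h1⟩⟩, ⟨a2, b2, c2, h2⟩, ⟨a3, b3, c3, h3⟩⟩ := h
  refine ⟨a, b, c, a', b', c', h0, h1, ?_⟩
  rintro rfl
  apply h'
  have hX : ∀ i, φ (φ⁻¹ (X i)) = X i := fun i => φ.apply_symm_apply _
  have e0 := hX 0
  have e1 := hX 1
  rw [h2, au_lin, h0, h1] at e0
  rw [h3, au_lin, h0, h1] at e1
  have e0' : (C (a2 * a) * X 0 + C (a2 * b + b2 * b') * X 1 + C (a2 * c + b2 * c' + c2) : PP k) =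
      C 1 * X 0 + C 0 * X 1 + C 0 := by
    rw [C_1, C_0, one_mul, zero_mul, add_zero, add_zero]
    refine Eq.trans ?_ e0
    simp only [C_add, C_mul, C_0]
    ring
  have e1' : (C (a3 * a) * X 0 + C (a3 * b + b3 * b') * X 1 + C (a3 * c + b3 * c' + c3) : PP k) =
      C 0 * X 0 + C 1 * X 1 + C 0 := by
    rw [C_1, C_0, one_mul, zero_mul, add_zero, zero_add]
    refine Eq.trans ?_ e1
    simp only [C_add, C_mul, C_0]
    ring
  have f0 := (lin_inj e0').1
  have f1 := (lin_inj e1').1
  have ha : a ≠ 0 := by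
    rintro rfl
    simp at f0
  have ha3 : a3 = 0 := by
    rcases mul_eq_zero.1 f1 with h | h
    · exact h
    · exact absurd h ha
  subst ha3
  refine ⟨⟨⟨a, Polynomial.C b * Polynomial.X + Polynomial.C c, ?_⟩, ⟨b', c', ?_⟩⟩,
    ⟨a2, Polynomial.C b2 * Polynomial.X + Polynomial.C c2, ?_⟩, ⟨b3, c3, ?_⟩⟩
  · rw [h0]
    simp [algebraMap_eq, add_assoc]
  · rw [h1]
    simp
  · rw [h2]
    simp [algebraMap_eq, add_assoc]
  · rw [h3]
    simp

/-- the diagonal entries of triangular automorphisms are not zero -/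
theorem tri_ne {φ : Au k} (h : φ ∈ triangular k) {a d c : k} {p : Polynomial k}
    (h0 : φ (X 0) = C a * X 0 + Polynomial.aeval (X 1) p) (h1 : φ (X 1) = C d * X 1 + C c) :
    a ≠ 0 ∧ d ≠ 0 ∧ ∃ (a' d' c' : k) (p' : Polynomial k),
      φ⁻¹ (X 0) = C a' * X 0 + Polynomial.aeval (X 1) p' ∧ φ⁻¹ (X 1) = C d' * X 1 + C c' ∧
      a' * a = 1 ∧ d' * d = 1 ∧
      p'.comp (Polynomial.C d * Polynomial.X + Polynomial.C c) = - (Polynomial.C a' * p) := by
  obtain ⟨_, ⟨⟨a', p', h2⟩, ⟨d', c', h3⟩⟩⟩ := h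
  have hX : ∀ i, φ (φ⁻¹ (X i)) = X i := fun i => φ.apply_symm_apply _
  have e0 := hX 0
  have e1 := hX 1
  rw [h2, map_add, map_mul, au_C, au_aeval, h0, h1] at e0
  rw [h3, map_add, map_mul, au_C, au_C, h1] at e1
  have e1' : (C 0 * X 0 + C (d' * d) * X 1 + C (d' * c + c') : PP k) =
      C 0 * X 0 + C 1 * X 1 + C 0 := by
    rw [C_1, C_0, one_mul, zero_mul, zero_add, zero_add, add_zero]
    refine Eq.trans ?_ e1
    simp only [C_add, C_mul]
    ring
  have e0' : (C (a' * a) * X 0 + Polynomial.aeval (X 1) (Polynomial.C a' * p +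
      p'.comp (Polynomial.C d * Polynomial.X + Polynomial.C c)) : PP k) =
      C 1 * X 0 + Polynomial.aeval (X 1) (0 : Polynomial k) := by
    rw [C_1, one_mul, map_zero, add_zero]
    refine Eq.trans ?_ e0
    rw [C_mul]
    simp only [map_add, map_mul, Polynomial.aeval_C, Polynomial.aeval_comp, Polynomial.aeval_X,
      algebraMap_eq]
    ring
  have f1 := (lin_inj e1').2.1
  have f0 := sep e0'
  refine ⟨?_, ?_, a', d', c', p', h2, h3, f0.1, f1, ?_⟩
  · rintro rfl
    simp at f0
  · rintro rfl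
    simp at f1
  · rw [eq_neg_iff_add_eq_zero, add_comm]
    exact f0.2

/-- the triangular automorphisms which are not affine -/
theorem tri_not_aff {φ : Au k} (h : φ ∈ triangular k) (h' : φ ∉ affine k) {a d c : k}
    {p : Polynomial k} (h0 : φ (X 0) = C a * X 0 + Polynomial.aeval (X 1) p)
    (h1 : φ (X 1) = C d * X 1 + C c) : 2 ≤ p.natDegree := by
  by_contra hcon
  apply h'
  obtain ⟨ha, hd, a', d', c', p', h2, h3, f1, f2, f3⟩ := tri_ne h h0 h1
  have key : ∀ (r : Polynomial k), r.natDegree ≤ 1 → ∀ s : k,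
      Lin (C s * X 0 + Polynomial.aeval (X 1) r : PP k) := by
    intro r hr s
    obtain ⟨u, v, rfl⟩ := Polynomial.exists_eq_X_add_C_of_natDegree_le_one hr
    exact ⟨s, u, v, by simp [algebraMap_eq, add_assoc]⟩
  have hp' : p'.natDegree ≤ 1 := by
    have h4 := congrArg Polynomial.natDegree f3
    rw [Polynomial.natDegree_comp, Polynomial.natDegree_neg] at h4
    have h5 : (Polynomial.C d * Polynomial.X + Polynomial.C c).natDegree = 1 :=
      Polynomial.natDegree_linear hd
    rw [h5, mul_one] at h4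
    rw [h4]
    exact (Polynomial.natDegree_C_mul_le _ _).trans (by omega)
  refine ⟨⟨?_, ?_⟩, ?_, ?_⟩
  · rw [h0]
    exact key p (by omega) a
  · rw [h1]
    exact ⟨0, d, c, by simp⟩
  · rw [h2]
    exact key p' hp' a'
  · rw [h3]
    exact ⟨0, d', c', by simp⟩

end Pool.Agent.Helper97.PA
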