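import Pool.Agent.Helper97.PA.AAp

/-!
# Elements fixing two consecutive edges
-/

set_option autoImplicit false

namespace Pool.Agent.Helper97.PA

open MvPolynomial

variable {k : Type} [Field k]

/-- the coefficient of `x` in `φ x` -/
noncomputable def al (φ : Au k) : k := constantCoeff (pderiv 0 (φ (X 0)))

/-- the coefficient of `y` in `φ y` -/
noncomputable def de (φ : Au k) : k := constantCoeff (pderiv 1 (φ (X 1)))

theorem al_eq {φ : Au k} {a : k} {p : Polynomial k}
    (h : φ (X 0) = C a * X 0 + Polynomial.aeval (X 1) p) : al φ = a := by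
  unfold al
  rw [h, map_add, Derivation.map_aeval, pderiv_X_of_ne (by decide), smul_zero, add_zero,
    Derivation.leibniz, pderiv_C, smul_zero, add_zero, pderiv_X_self]
  simp

theorem de_eq {φ : Au k} {d c : k} (h : φ (X 1) = C d * X 1 + C c) : de φ = d := by
  unfold de
  rw [h, map_add, pderiv_C, add_zero, Derivation.leibniz, pderiv_C, smul_zero, add_zero,
    pderiv_X_self]
  simp

/-- the normal form of a triangular automorphism -/
theorem tri_form {φ : Au k} (h : φ ∈ triangular k) : ∃ (p : Polynomial k) (c : k),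
    φ (X 0) = C (al φ) * X 0 + Polynomial.aeval (X 1) p ∧ φ (X 1) = C (de φ) * X 1 + C c ∧
    al φ ≠ 0 ∧ de φ ≠ 0 := by
  obtain ⟨⟨⟨a, p, h0⟩, ⟨d, c, h1⟩⟩, _⟩ := id h
  have ha := al_eq h0
  have hd := de_eq h1
  obtain ⟨h2, h3, _⟩ := tri_ne h h0 h1
  subst ha hd
  exact ⟨p, c, h0, h1, h2, h3⟩

/-- the normal form of a triangular automorphism with an additive polynomial -/
theorem triAd_form {φ : Au k} (h : φ ∈ triAd k) : ∃ (p : Polynomial k) (c : k), AA p ∧
    φ (X 0) = C (al φ) * X 0 + Polynomial.aeval (X 1) p ∧ φ (X 1) = C (de φ) * X 1 + C c ∧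
    al φ ≠ 0 ∧ de φ ≠ 0 := by
  obtain ⟨p, c, h0, h1, h2, h3⟩ := tri_form (triAd_le h)
  obtain ⟨⟨⟨a, r, e, hr, h4⟩, _⟩, _⟩ := h
  refine ⟨p, c, ⟨r, e, hr, ?_⟩, h0, h1, h2, h3⟩
  have h5 : φ (X 0) = C a * X 0 + Polynomial.aeval (X 1) (r + Polynomial.C e) := by
    rw [h4, map_add, Polynomial.aeval_C, algebraMap_eq, add_assoc]
  rw [h0] at h5
  exact (sep h5).2

theorem al_mul {φ ψ : Au k} (hφ : φ ∈ triangular k) (hψ : ψ ∈ triangular k) :
    al (φ * ψ) = al φ * al ψ := by
  obtain ⟨p, c, h0, h1, _, _⟩ := tri_form hφ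
  obtain ⟨p', c', h0', h1', _, _⟩ := tri_form hψ
  have h2 : (φ * ψ) (X 0) = C (al φ * al ψ) * X 0 + Polynomial.aeval (X 1)
      (Polynomial.C (al ψ) * p + p'.comp (Polynomial.C (de φ) * Polynomial.X +
        Polynomial.C c)) := by
    show φ (ψ (X 0)) = _
    rw [h0', map_add, map_mul, au_C, au_aeval, h0, h1, C_mul]
    simp only [map_add, map_mul, Polynomial.aeval_C, Polynomial.aeval_comp, Polynomial.aeval_X,
      algebraMap_eq]
    ring
  exact al_eq h2

theorem de_mul {φ ψ : Au k} (hφ : φ ∈ triangular k) (hψ : ψ ∈ triangular k) :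
    de (φ * ψ) = de φ * de ψ := by
  obtain ⟨p, c, h0, h1, _, _⟩ := tri_form hφ
  obtain ⟨p', c', h0', h1', _, _⟩ := tri_form hψ
  have h2 : (φ * ψ) (X 1) = C (de φ * de ψ) * X 1 + C (de ψ * c + c') := by
    show φ (ψ (X 1)) = _
    rw [h1', map_add, map_mul, au_C, au_C, h1, C_mul, C_add, C_mul]
    ring
  exact de_eq h2

theorem al_one : al (1 : Au k) = 1 := al_eq (p := 0) (by simp)

theorem de_one : de (1 : Au k) = 1 := de_eq (c := 0) (by simp)

/-- a triangular automorphism whose polynomial is additive up to a constant -/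
theorem mem_triAd {φ : Au k} (h : φ ∈ triangular k) {a d c : k} {p : Polynomial k}
    (h0 : φ (X 0) = C a * X 0 + Polynomial.aeval (X 1) p) (h1 : φ (X 1) = C d * X 1 + C c)
    (hp : AA p) : φ ∈ triAd k := by
  obtain ⟨ha, hd, a', d', c', p', h2, h3, f1, f2, f3⟩ := tri_ne h h0 h1
  have hp' : AA p' := by
    have h4 := congrArg (fun q : Polynomial k =>
      q.comp (Polynomial.C d' * Polynomial.X + Polynomial.C (-(d' * c)))) f3
    have h5 : (Polynomial.C d * Polynomial.X + Polynomial.C c).comp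
        (Polynomial.C d' * Polynomial.X + Polynomial.C (-(d' * c))) = Polynomial.X := by
      have h6 : Polynomial.C d * (Polynomial.C d' * Polynomial.X +
          Polynomial.C (-(d' * c))) + Polynomial.C c =
          Polynomial.C (d' * d) * Polynomial.X + Polynomial.C (c - d' * d * c) := by
        simp only [Polynomial.C_mul, Polynomial.C_neg, Polynomial.C_sub]
        ring
      simp only [Polynomial.add_comp, Polynomial.mul_comp, Polynomial.C_comp, Polynomial.X_comp]
      rw [h6, f2]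
      simp
    simp only [Polynomial.comp_assoc, h5, Polynomial.comp_X] at h4
    rw [h4]
    exact (hp.smul a').neg.comp_lin _ _
  obtain ⟨r, e, hr, rfl⟩ := hp
  obtain ⟨r', e', hr', rfl⟩ := hp'
  refine ⟨⟨⟨a, r, e, hr, ?_⟩, ⟨d, c, h1⟩⟩, ⟨⟨a', r', e', hr', ?_⟩, ⟨d', c', h3⟩⟩⟩
  · rw [h0, map_add, Polynomial.aeval_C, algebraMap_eq, add_assoc]
  · rw [h2, map_add, Polynomial.aeval_C, algebraMap_eq, add_assoc]

/-! ### turns at triangular vertices -/

/-- the relations at a turn at a triangular vertex -/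
theorem eturn_rel {s f f' : Au k} {l m n : k} {p : Polynomial k}
    (e0 : s (X 0) = C l * X 0 + Polynomial.aeval (X 1) p) (e1 : s (X 1) = C m * X 1 + C n)
    (hl : l ≠ 0) (hm : m ≠ 0) (hf : f ∈ triAd k) (hf' : f' ∈ triAd k) (h : f * s = s * f') :
    al f = al f' ∧ de f = de f' ∧
      ∃ c, f (X 1) = C (de f) * X 1 + C c ∧
        AA (p.comp (Polynomial.C (de f) * Polynomial.X + Polynomial.C c) -
          Polynomial.C (al f) * p) := by
  obtain ⟨u, c, hu, f0, f1, _, _⟩ := triAd_form hf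
  obtain ⟨u', c', hu', f0', f1', _, _⟩ := triAd_form hf'
  have h0 := congrArg (fun g : Au k => g (X 0)) h
  have h1 := congrArg (fun g : Au k => g (X 1)) h
  have g0 : (f * s) (X 0) = C (l * al f) * X 0 + Polynomial.aeval (X 1)
      (Polynomial.C l * u +
        p.comp (Polynomial.C (de f) * Polynomial.X + Polynomial.C c)) := by
    show f (s (X 0)) = _
    rw [e0, map_add, map_mul, au_C, au_aeval, f0, f1, C_mul]
    simp only [map_add, map_mul, Polynomial.aeval_C, Polynomial.aeval_comp, Polynomial.aeval_X,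
      algebraMap_eq]
    ring
  have g0' : (s * f') (X 0) = C (al f' * l) * X 0 + Polynomial.aeval (X 1)
      (Polynomial.C (al f') * p +
        u'.comp (Polynomial.C m * Polynomial.X + Polynomial.C n)) := by
    show s (f' (X 0)) = _
    rw [f0', map_add, map_mul, au_C, au_aeval, e0, e1, C_mul]
    simp only [map_add, map_mul, Polynomial.aeval_C, Polynomial.aeval_comp, Polynomial.aeval_X,
      algebraMap_eq]
    ring
  have g1 : (f * s) (X 1) = C 0 * X 0 + C (m * de f) * X 1 + C (m * c + n) := by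
    show f (s (X 1)) = _
    rw [e1, map_add, map_mul, au_C, au_C, f1]
    simp only [C_mul, C_add, C_0]
    ring
  have g1' : (s * f') (X 1) = C 0 * X 0 + C (de f' * m) * X 1 + C (de f' * n + c') := by
    show s (f' (X 1)) = _
    rw [f1', map_add, map_mul, au_C, au_C, e1]
    simp only [C_mul, C_add, C_0]
    ring
  have h0' : (f * s) (X 0) = (s * f') (X 0) := h0
  have h1' : (f * s) (X 1) = (s * f') (X 1) := h1
  rw [g0, g0'] at h0'
  rw [g1, g1'] at h1'
  obtain ⟨i1, i2⟩ := sep h0'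
  obtain ⟨_, i3, _⟩ := lin_inj h1'
  have ha : al f = al f' := by
    rw [mul_comm] at i1
    exact mul_right_cancel₀ hl i1
  have hd : de f = de f' := by
    rw [mul_comm] at i3
    exact mul_right_cancel₀ hm i3
  refine ⟨ha, hd, c, f1, ?_⟩
  have h2 : p.comp (Polynomial.C (de f) * Polynomial.X + Polynomial.C c) -
      Polynomial.C (al f) * p =
      u'.comp (Polynomial.C m * Polynomial.X + Polynomial.C n) - Polynomial.C l * u := by
    rw [ha, sub_eq_sub_iff_add_eq_add]
    linear_combination i2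
  rw [h2]
  exact (hu'.comp_lin _ _).sub (hu.smul _)

/-- the torus part at a turn at a triangular vertex -/
theorem eturn {s : Au k} (hs : s ∈ triangular k) (hs' : s ∉ addG k) :
    ∃ n, 2 ≤ n ∧ ∀ f f' : Au k, f ∈ triAd k → f' ∈ triAd k → f * s = s * f' →
      al f = al f' ∧ de f = de f' ∧ al f = de f ^ n := by
  obtain ⟨p, n, e0, e1, hl, hm⟩ := tri_form hs
  have hp : ¬ AA p := fun h => hs' (triAd_le_addG (mem_triAd hs e0 e1 h))
  obtain ⟨p1, hp1, hdeg, hmin⟩ := exists_min hp
  refine ⟨p1.natDegree, hdeg, ?_⟩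
  intro f f' hf hf' h
  obtain ⟨ha, hd, c, f1, hA⟩ := eturn_rel e0 e1 hl hm hf hf' h
  obtain ⟨_, _, _, _, _, _, hdf⟩ := triAd_form hf
  refine ⟨ha, hd, ?_⟩
  have h1 : AA (p1.comp (Polynomial.C (de f) * Polynomial.X + Polynomial.C c) -
      Polynomial.C (al f) * p1) := by
    have h2 := hA.sub ((hp1.comp_lin (de f) c).sub (hp1.smul (al f)))
    convert h2 using 1
    rw [Polynomial.sub_comp]
    ring
  have h2 := hmin _ h1 ((Polynomial.natDegree_sub_le _ _).trans
    (max_le (natDegree_comp_lin _ _ _) (Polynomial.natDegree_C_mul_le _ _)))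
  rw [Polynomial.coeff_sub, coeff_comp_lin _ hdf, Polynomial.coeff_C_mul,
    Polynomial.coeff_natDegree, mul_comm (al f), ← mul_sub] at h2
  have h3 : p1.leadingCoeff ≠ 0 := by
    rw [Polynomial.leadingCoeff_ne_zero]
    rintro rfl
    simp at hdeg
  rcases mul_eq_zero.1 h2 with h4 | h4
  · exact absurd h4 h3
  · exact (sub_eq_zero.1 h4).symm

/-! ### turns at additive vertices -/

theorem Ad.aeval_zero {r : Polynomial k} (hr : Ad r) :
    Polynomial.aeval (0 : Polynomial k) r = 0 := by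
  have h0 : (0 : Polynomial k) = algebraMap k (Polynomial k) 0 := (_root_.map_zero _).symm
  rw [h0, Polynomial.aeval_algebraMap_apply, Polynomial.coe_aeval_eq_eval, hr.eval_zero]

theorem Ad.natDegree_pos {r : Polynomial k} (hr : Ad r) (h : r ≠ 0) : 1 ≤ r.natDegree := by
  by_contra hcon
  have h1 : r.natDegree = 0 := by omega
  rw [Polynomial.eq_C_of_natDegree_eq_zero h1] at hr h
  have h2 := hr.eval_zero
  rw [Polynomial.eval_C] at h2
  rw [h2] at h
  simp at h

/-- projections of sums of additive polynomials -/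
theorem proj {r s : Polynomial k} (hr : Ad r) (hs : Ad s) (c : k) :
    MvPolynomial.aeval (![Polynomial.X, 0] : Fin 2 → Polynomial k)
      (Polynomial.aeval (X 0) r + Polynomial.aeval (X 1) s + C c) = r + Polynomial.C c ∧
    MvPolynomial.aeval (![0, Polynomial.X] : Fin 2 → Polynomial k)
      (Polynomial.aeval (X 0) r + Polynomial.aeval (X 1) s + C c) = s + Polynomial.C c := by
  constructor
  · rw [map_add, map_add, ← Polynomial.aeval_algHom_apply, ← Polynomial.aeval_algHom_apply,
      aeval_X, aeval_X, aeval_C]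
    show Polynomial.aeval Polynomial.X r + Polynomial.aeval 0 s + _ = _
    rw [hs.aeval_zero, Polynomial.aeval_X_left_apply, add_zero]
    rfl
  · rw [map_add, map_add, ← Polynomial.aeval_algHom_apply, ← Polynomial.aeval_algHom_apply,
      aeval_X, aeval_X, aeval_C]
    show Polynomial.aeval 0 r + Polynomial.aeval Polynomial.X s + _ = _
    rw [hr.aeval_zero, Polynomial.aeval_X_left_apply, zero_add]
    rfl

theorem add_inj {r s r' s' : Polynomial k} {c c' : k} (hr : Ad r) (hs : Ad s) (hr' : Ad r')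
    (hs' : Ad s') (h : (Polynomial.aeval (X 0) r + Polynomial.aeval (X 1) s + C c : PP k) =
      Polynomial.aeval (X 0) r' + Polynomial.aeval (X 1) s' + C c') :
    r = r' ∧ s = s' ∧ c = c' := by
  have h1 := congrArg (MvPolynomial.aeval (![Polynomial.X, 0] : Fin 2 → Polynomial k)) h
  have h2 := congrArg (MvPolynomial.aeval (![0, Polynomial.X] : Fin 2 → Polynomial k)) h
  rw [(proj hr hs c).1, (proj hr' hs' c').1] at h1
  rw [(proj hr hs c).2, (proj hr' hs' c').2] at h2
  have h3 := congrArg (Polynomial.eval 0) h1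
  rw [Polynomial.eval_add, Polynomial.eval_add, hr.eval_zero, hr'.eval_zero, Polynomial.eval_C,
    Polynomial.eval_C, zero_add, zero_add] at h3
  subst h3
  exact ⟨add_right_cancel h1, add_right_cancel h2, rfl⟩

/-- an automorphism given by additive polynomials which is not triangular -/
theorem add_not_tri {s : Au k} (hs : s ∈ addG k) (hs' : s ∉ triangular k) :
    ∃ (r t : Polynomial k) (c : k), Ad r ∧ Ad t ∧ r ≠ 0 ∧
      s (X 1) = Polynomial.aeval (X 0) r + Polynomial.aeval (X 1) t + C c := by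
  obtain ⟨h1, h2⟩ := hs
  obtain ⟨r, t, c, hr, ht, e1⟩ := h1 1
  obtain ⟨r0, t0, c0, hr0, ht0, e0⟩ := h1 0
  obtain ⟨r', t', c', hr', ht', e1'⟩ := h2 1
  obtain ⟨r0', t0', c0', hr0', ht0', e0'⟩ := h2 0
  refine ⟨r, t, c, hr, ht, ?_, e1⟩
  rintro rfl
  apply hs'
  have hX : ∀ i, s⁻¹ (s (X i)) = X i := fun i => s.symm_apply_apply _
  have hX' : ∀ i, s (s⁻¹ (X i)) = X i := fun i => s.apply_symm_apply _
  have comp : ∀ (g : Au k) {a b r1 t1 r2 t2 : Polynomial k} {c1 c2 e : k}, Ad a → Ad b →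
      g (X 0) = Polynomial.aeval (X 0) r1 + Polynomial.aeval (X 1) t1 + C c1 →
      g (X 1) = Polynomial.aeval (X 0) r2 + Polynomial.aeval (X 1) t2 + C c2 →
      g (Polynomial.aeval (X 0) a + Polynomial.aeval (X 1) b + C e) =
        Polynomial.aeval (X 0) (a.comp r1 + b.comp r2) +
        Polynomial.aeval (X 1) (a.comp t1 + b.comp t2) +
        C (a.eval c1 + b.eval c2 + e) := by
    intro g a b r1 t1 r2 t2 c1 c2 e ha hb g0 g1
    rw [map_add, map_add, au_aeval, au_aeval, au_C, g0, g1, ha, ha, hb, hb, aeval_C', aeval_C',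
      map_add, map_add, Polynomial.aeval_comp, Polynomial.aeval_comp, Polynomial.aeval_comp,
      Polynomial.aeval_comp, C_add, C_add]
    ring
  have x1 : (X 1 : PP k) = Polynomial.aeval (X 0) (0 : Polynomial k) +
      Polynomial.aeval (X 1) (Polynomial.X : Polynomial k) + C 0 := by simp
  have x0 : (X 0 : PP k) = Polynomial.aeval (X 0) (Polynomial.X : Polynomial k) +
      Polynomial.aeval (X 1) (0 : Polynomial k) + C 0 := by simp
  -- `s⁻¹ (s y) = y`
  have h3 := hX 1
  rw [e1, comp s⁻¹ hr ht e0' e1', Polynomial.zero_comp, Polynomial.zero_comp, zero_add,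
    zero_add] at h3
  have h3' := add_inj (ht.comp hr') (ht.comp ht') ad_zero ad_X (h3.trans x1)
  have htt : 1 = t.natDegree * t'.natDegree := by
    rw [← Polynomial.natDegree_comp, h3'.2.1, Polynomial.natDegree_X]
  have ht1 : t.natDegree = 1 := Nat.eq_one_of_mul_eq_one_right htt.symm
  have hr'0 : r' = 0 := by
    rcases Polynomial.comp_eq_zero_iff.1 h3'.1 with h4 | ⟨_, h4⟩
    · rw [h4] at ht1
      simp at ht1
    · by_contra h5
      have h6 := hr'.natDegree_pos h5
      rw [h4, Polynomial.natDegree_C] at h6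
      omega
  subst hr'0
  -- `s⁻¹ (s x) = x`
  have h5 := hX 0
  rw [e0, comp s⁻¹ hr0 ht0 e0' e1', Polynomial.comp_zero, ht0.eval_zero, Polynomial.C_0,
    add_zero] at h5
  have h5' := (add_inj (hr0.comp hr0') ((hr0.comp ht0').add (ht0.comp ht')) ad_X ad_zero
    (h5.trans x0)).1
  have h6 : 1 = r0.natDegree * r0'.natDegree := by
    rw [← Polynomial.natDegree_comp, h5', Polynomial.natDegree_X]
  have hlin : ∀ {r : Polynomial k}, Ad r → r.natDegree ≤ 1 → ∃ a : k,
      r = Polynomial.C a * Polynomial.X := by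
    intro r hr hdeg
    obtain ⟨a, b, rfl⟩ := Polynomial.exists_eq_X_add_C_of_natDegree_le_one hdeg
    have h7 := hr.eval_zero
    simp at h7
    subst h7
    exact ⟨a, by simp⟩
  have ht1' : t'.natDegree = 1 := Nat.eq_one_of_mul_eq_one_left htt.symm
  have hr01 : r0.natDegree = 1 := Nat.eq_one_of_mul_eq_one_right h6.symm
  have hr01' : r0'.natDegree = 1 := Nat.eq_one_of_mul_eq_one_left h6.symm
  obtain ⟨a, rfl⟩ := hlin ht ht1.le
  obtain ⟨a', rfl⟩ := hlin ht' ht1'.le
  obtain ⟨b, rfl⟩ := hlin hr0 hr01.le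
  obtain ⟨b', rfl⟩ := hlin hr0' hr01'.le
  refine ⟨⟨⟨b, t0 + Polynomial.C c0, ?_⟩, ⟨a, c, ?_⟩⟩,
    ⟨⟨b', t0' + Polynomial.C c0', ?_⟩, ⟨a', c', ?_⟩⟩⟩
  · rw [e0]
    simp [algebraMap_eq, add_assoc]
  · rw [e1]
    simp [algebraMap_eq]
  · rw [e0']
    simp [algebraMap_eq, add_assoc]
  · rw [e1']
    simp [algebraMap_eq]

end Pool.Agent.Helper97.PA
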